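import Pool.Agent.Run7.h913.ST.Geo
import Pool.Agent.Run7.h913.QG.Main
import Pool.Agent.Run7.h528.NR.Gap
import Pool.Agent.Run7.h528.NR.FinalD

/-!
The structure of the groups of isomorphisms in codimension one whose degrees grow at most
quadratically in the word length.
-/

set_option autoImplicit false
set_option linter.overlappingInstances false
set_option linter.unusedSectionVars false

open FF Module MvPolynomial Pool.Agent.W602.GT Pool.Agent.W603.LV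
open Pool.Agent.Y172 Pool.Agent.Y191 Pool.Agent.R887
open Pool.Agent.N110 Pool.Agent.N110.RK Pool.Agent.N110.DV Run7.h528.NR
open scoped ENNReal

namespace Run7.h913.ST

section

variable {K : Type} [Field K] [Algebra ℂ K] {N n : ℕ} {y : Fin (N + 1) → K}

/-- the degrees grow at most quadratically in the word length, for all finitely generated subgroups
of `G` -/
def Quadr (hy : NormalModel y) {i : Fin (N + 1)} (hi : y i ≠ 0) (n : ℕ)
    (G : Subgroup (K ≃ₐ[ℂ] K)) : Prop :=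
  ∀ T : Finset G, ∃ C : ℝ, ∀ w : List G, w ≠ [] → (∀ g ∈ w, g ∈ T ∨ g⁻¹ ∈ T) →
    dg hy hi n ((w.prod : G) : K ≃ₐ[ℂ] K) ≤ C * (w.length : ℝ) ^ 2

/-- on a curve the degrees are bounded -/
theorem quadr_curve (hy : NormalModel y) (hn : Algebra.trdeg ℂ K = (1 : ℕ)) {i : Fin (N + 1)}
    (hi : y i ≠ 0) (G : Subgroup (K ≃ₐ[ℂ] K)) : Quadr hy hi 1 G := by
  intro T
  refine ⟨(I (Multiset.replicate 1 (hcls hy hi)) : ℕ), fun w hw _ => ?_⟩
  have h5 := Run7.h913.QG.deg_curve hy hn hi ((w.prod : G) : K ≃ₐ[ℂ] K)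
  rw [Run7.h913.QG.deg_eq hy hn one_pos hi] at h5
  have h6 : dg hy hi 1 ((w.prod : G) : K ≃ₐ[ℂ] K) =
      ((I (Multiset.replicate 1 (hcls hy hi)) : ℕ) : ℝ) := by
    unfold Run7.h528.NR.dg
    exact_mod_cast h5
  rw [h6]
  have h7 : (1 : ℝ) ≤ (w.length : ℝ) ^ 2 := by
    refine one_le_pow₀ ?_
    exact_mod_cast List.length_pos_iff.2 hw
  have h8 := mul_le_mul_of_nonneg_left h7
    (Nat.cast_nonneg (α := ℝ) (I (Multiset.replicate 1 (hcls hy hi))))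
  rw [mul_one] at h8
  exact h8

/-- the quadratic growth for groups which preserve `K_X + Δ`, of numerical dimension at least
`n - 1` -/
theorem quadr_of (hy : NormalModel y) (hn : Algebra.trdeg ℂ K = n) (hn0 : 0 < n)
    {i : Fin (N + 1)} (hi : y i ≠ 0) {Δ : Place ℂ K → ℚ}
    (hΔ : {P | IsPrimeDivisor y P ∧ Δ P ≠ 0}.Finite) (G : Subgroup (K ≃ₐ[ℂ] K))
    (hP : ∀ g ∈ G, PullLe g y n Δ) (hnum : 1 < n → ¬ NumDimLt y n Δ (n - 1)) :
    Quadr hy hi n G := by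
  rcases Nat.lt_or_ge 1 n with h1 | h1
  · obtain ⟨d, rfl⟩ : ∃ d, n = d + 2 := ⟨n - 2, by omega⟩
    have hnum' := hnum h1
    rw [show d + 2 - 1 = d + 1 by omega] at hnum'
    obtain ⟨m, M, c, ε, h⟩ := exists_gsys hy hn hn0 hi hΔ (G := G)
      (φ := fun g => (g : K ≃ₐ[ℂ] K)) rfl (fun _ _ => rfl) (fun g => hP g g.2) (by omega) hnum'
    intro T
    obtain ⟨C, hC⟩ := Run7.h913.QG.quad h (T := (T : Set G))
      (B := ∑ g ∈ T, dg hy hi (d + 2) (g : K ≃ₐ[ℂ] K)) (by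
        intro g hg
        exact Finset.single_le_sum (f := fun g : G => dg hy hi (d + 2) (g : K ≃ₐ[ℂ] K))
          (fun g _ => dg_nonneg hy hi _) (Finset.mem_coe.1 hg))
    exact ⟨C, fun w hw hT => hC w hw fun g hg => hT g hg⟩
  · obtain rfl : n = 1 := by omega
    exact quadr_curve hy hn hi G

/-- the same for divisors with invariant class -/
theorem quadr_ofD (hy : NormalModel y) (hn : Algebra.trdeg ℂ K = n) (hn0 : 0 < n)
    {i : Fin (N + 1)} (hi : y i ≠ 0) {L : Place ℂ K → ℚ}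
    (hL : {P | IsPrimeDivisor y P ∧ L P ≠ 0}.Finite) (G : Subgroup (K ≃ₐ[ℂ] K))
    (hiso : ∀ g ∈ G, PseudoAut g y) (hcl : ∀ g ∈ G, ClassLe g y L)
    (hnum : 1 < n → ¬ NuLt y n L (n - 1)) : Quadr hy hi n G := by
  rcases Nat.lt_or_ge 1 n with h1 | h1
  · obtain ⟨d, rfl⟩ : ∃ d, n = d + 2 := ⟨n - 2, by omega⟩
    have hnum' := hnum h1
    rw [show d + 2 - 1 = d + 1 by omega] at hnum'
    obtain ⟨m, M, c, ε, h⟩ := exists_gsysD hy hn hn0 hi hL (G := G)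
      (φ := fun g => (g : K ≃ₐ[ℂ] K)) rfl (fun _ _ => rfl) (fun g => hiso g g.2)
      (fun g => hcl g g.2) (by omega) hnum'
    intro T
    obtain ⟨C, hC⟩ := Run7.h913.QG.quad h (T := (T : Set G))
      (B := ∑ g ∈ T, dg hy hi (d + 2) (g : K ≃ₐ[ℂ] K)) (by
        intro g hg
        exact Finset.single_le_sum (f := fun g : G => dg hy hi (d + 2) (g : K ≃ₐ[ℂ] K))
          (fun g _ => dg_nonneg hy hi _) (Finset.mem_coe.1 hg))
    exact ⟨C, fun w hw hT => hC w hw fun g hg => hT g hg⟩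
  · obtain rfl : n = 1 := by omega
    exact quadr_curve hy hn hi G

/-- the degrees are positive -/
theorem dg_pos (hy : NormalModel y) (hn : Algebra.trdeg ℂ K = n) (hn0 : 0 < n)
    {i : Fin (N + 1)} (hi : y i ≠ 0) (g : K ≃ₐ[ℂ] K) : 1 ≤ dg hy hi n g := by
  have h1 := I_pos (ctx hy hn hi) (s := mapCls hy hi g (hcls hy hi) ::ₘ
    Multiset.replicate (n - 1) (hcls hy hi)) (by
      rw [Multiset.card_cons, Multiset.card_replicate]
      omega)
  unfold Run7.h528.NR.dg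
  exact_mod_cast h1

/-- **The structure theorem.** -/
theorem mw_main (hy : NormalModel y) (hn : Algebra.trdeg ℂ K = n) (hn0 : 0 < n)
    {i : Fin (N + 1)} (hi : y i ≠ 0) {ρ : ℕ} {c : Place ℂ K → Fin ρ → ℤ} (hc : NumClasses y c)
    (G : Subgroup (K ≃ₐ[ℂ] K)) (hps : ∀ g ∈ G, PseudoAut g y) (hQ : Quadr hy hi n G) :
    ∃ (G₀ : Subgroup G) (r : ℕ) (Φ : G₀ →* Multiplicative (Fin r → ℤ)) (C : ℝ),
      G₀.Normal ∧ G₀.FiniteIndex ∧ Function.Surjective Φ ∧ (r = 0 ∨ r + 2 ≤ ρ) ∧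
      (∀ g : G₀, Φ g = 1 → ∀ P, IsPrimeDivisor y P →
        c (comap ((g : G) : K ≃ₐ[ℂ] K)⁻¹ P) = c P) ∧
      ∀ g : G₀, ∃ D : ℕ, mixedDegree ((g : G) : K ≃ₐ[ℂ] K) y n 1 = D ∧
        (∑ i, |((Multiplicative.toAdd (Φ g) i : ℤ) : ℝ)|) ^ 2 ≤ C * D ∧
        D ≤ C * ((∑ i, |((Multiplicative.toAdd (Φ g) i : ℤ) : ℝ)|) ^ 2 + 1) := by
  obtain ⟨ρ', M, x, C, hρ, hC, hM1, hM, hup, hlow, hsal, hker⟩ := matS hy hn hn0 hc (G := G)
    (φ := fun g => (g : K ≃ₐ[ℂ] K)) (fun _ _ => rfl) (fun g => hps g g.2)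
  have hdl : ∀ g : G, nr (im (M g)) ≤ C * dg hy hi n (g : K ≃ₐ[ℂ] K) := by
    intro g
    obtain ⟨D, hD1, hD2⟩ := dg_nat hy hn hn0 hi (g : K ≃ₐ[ℂ] K)
    rw [hD1]
    exact hlow g D hD2.le
  have hdu : ∀ g : G, dg hy hi n (g : K ≃ₐ[ℂ] K) ≤ C * (nr (im (M g)) + 1) := by
    intro g
    have h5 := hup g
    rw [md_dg hy hn hn0 hi] at h5
    exact (ENNReal.ofReal_le_ofReal_iff (mul_nonneg hC.le (add_nonneg (nr_nonneg _)
      zero_le_one))).1 h5
  have hS : Sys M x C := by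
    refine ⟨hM1, hM, hC.le, hsal, fun T => ?_⟩
    obtain ⟨C', hC'⟩ := hQ T
    refine ⟨C * C', fun w hw hT => (hdl _).trans ?_⟩
    rw [mul_assoc]
    exact mul_le_mul_of_nonneg_left (hC' w hw hT) hC.le
  obtain ⟨r, Φ, C', hC', hsur, hr, hk, hb⟩ := hS.struct
  refine ⟨hS.sub, r, Φ, C' * (C + 1) + C * (C' + 1), hS.sub_normal, hS.sub_fin, hsur,
    hr.imp id (fun h => by omega), fun g hg P hP => ?_, fun g => ?_⟩
  · have h1 := hker (g : G) ((hk g).1 hg) P hP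
    rw [Subgroup.coe_inv] at h1
    exact h1
  · obtain ⟨D, hD1, hD2⟩ := dg_nat hy hn hn0 hi ((g : G) : K ≃ₐ[ℂ] K)
    refine ⟨D, hD2, ?_, ?_⟩
    · have h1 := (hb g).1
      have h2 := hdl (g : G)
      rw [hD1] at h2
      have h3 := dg_pos hy hn hn0 hi ((g : G) : K ≃ₐ[ℂ] K)
      rw [hD1] at h3
      refine h1.trans ?_
      have h4 : nr (im (M (g : G))) + 1 ≤ (C + 1) * D := by nlinarith
      have h5 := mul_le_mul_of_nonneg_left h4 hC'.le
      have h6 : 0 ≤ C * (C' + 1) * D := by positivity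
      nlinarith
    · have h1 := (hb g).2
      have h2 := hdu (g : G)
      rw [hD1] at h2
      obtain ⟨s, hs⟩ : ∃ s : ℝ, s = (∑ i, |((Multiplicative.toAdd (Φ g) i : ℤ) : ℝ)|) ^ 2 :=
        ⟨_, rfl⟩
      have hs0 : 0 ≤ s := by rw [hs]; exact sq_nonneg _
      rw [← hs] at h1 ⊢
      have h3 : nr (im (M (g : G))) + 1 ≤ (C' + 1) * (s + 1) := by nlinarith
      have h4 := mul_le_mul_of_nonneg_left h3 hC.le
      have h5 : 0 ≤ C' * (C + 1) * (s + 1) := by positivity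
      nlinarith

end

end Run7.h913.ST
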