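import Pool.Agent.Run7.h913.ST.PAlg

/-!
Degrees of isomorphisms in codimension one and integral matrices: the inequality which comes from
the fact that the pseudo-effective cone contains no line.
-/

set_option autoImplicit false
set_option linter.unusedSectionVars false
set_option linter.unusedVariables false

open FF Pool.Agent.W602.GT Pool.Agent.Y172 Pool.Agent.R887

namespace Run7.h913.ST

open Pool.Agent.N110 Pool.Agent.N110.PA Pool.Agent.N110.NV Pool.Agent.N492.PA Run7.h528.NR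
open Matrix

noncomputable section

section

variable {K : Type} [Field K] [Algebra ℂ K] {N n : ℕ} {y : Fin (N + 1) → K} {ρ : ℕ}
  {c : Place ℂ K → Fin ρ → ℤ} {G : Type} [Group G] {φ : G → (K ≃ₐ[ℂ] K)}

/-- the class of a divisor as a real vector -/
def rc (c : Place ℂ K → Fin ρ → ℤ) (D : QQ y →₀ ℤ) : Fin ρ → ℝ := toR (cls y (cQ c) (dv D))

theorem rc_apply (c : Place ℂ K → Fin ρ → ℤ) (D : QQ y →₀ ℤ) (i : Fin ρ) :
    rc c D i = ((ic c D i : ℤ) : ℝ) := by
  unfold rc toR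
  rw [cls_dv]
  push_cast
  rfl

/-- the classes of the translates of the hyperplane section are bounded from below by the classes
of the translates of all prime divisors -/
theorem sal_prime (hy : NormalModel y) {i : Fin (N + 1)} (hi : y i ≠ 0) {Hy : Place ℂ K → ℚ}
    (hHe : Effective y Hy)
    (hH : ∀ P l, IsPrimeDivisor y P → Centred y l P → Hy P = P.ord (y i / y l))
    (hc : NumClasses y c) (h : ∀ u v, φ (u * v) = φ u * φ v)
    (hps : ∀ v, PseudoAut (φ v) y) {HF : QQ y →₀ ℤ}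
    (hHF : ∀ P, IsPrimeDivisor y P → Hy P = dv HF P) (P0 : QQ y) :
    ∃ C : ℝ, 0 ≤ C ∧ ∀ v, ∑ j, |((c (pimG h hps v P0).1 j : ℤ) : ℝ)| ≤
      C * ‖rc c (HF.mapDomain (pimG h hps v)) + rc c (HF.mapDomain (pimG h hps v⁻¹))‖ := by
  classical
  obtain ⟨g, s, hg, hgs⟩ := dom hy hi hHe hH P0
  obtain ⟨c0, hc0, hcb⟩ := salient_bound (closure (effSet y (cQ c))) isClosed_closure
    (fun x hx r hr => clo_smul hx hr) (fun x hx hx' => hc.salient x hx hx')
  refine ⟨ρ * (s / c0 / c0), by positivity, fun v => ?_⟩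
  obtain ⟨P1, hP1⟩ : ∃ P1 : QQ y, P1 = pimG h hps v P0 := ⟨_, rfl⟩
  have hP1' : P1.1 = comap (φ v⁻¹) P0.1 := by rw [hP1]; rfl
  rw [← hP1]
  have hφg : φ v g ≠ 0 := by rwa [Ne, map_eq_zero]
  obtain ⟨Hv, hHv⟩ : ∃ Hv : G → QQ y →₀ ℤ, ∀ v, Hv v = HF.mapDomain (pimG h hps v) :=
    ⟨fun v => HF.mapDomain (pimG h hps v), fun _ => rfl⟩
  rw [← hHv, ← hHv]
  have hHeff : ∀ v, Effective y (dv (Hv v)) := by
    intro v
    refine ⟨fun P hP => ?_, dv_fin _⟩
    rw [hHv, dvG_map h hps v HF hP, ← hHF _ ((hps v _ _ fun _ => rfl).2 hP)]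
    exact hHe.1 _ ((hps v _ _ fun _ => rfl).2 hP)
  have hmem : ∀ v, rc c (Hv v) ∈ closure (effSet y (cQ c)) := fun v =>
    subset_closure (eff_mem (hHeff v))
  obtain ⟨E, hE⟩ : ∃ E : Place ℂ K → ℚ, E = fun P => (((P.ord (φ v g) : ℤ) : ℚ) +
    (s : ℚ) * dv (Hv v) P) - (if P = P1.1 then (1 : ℚ) else 0) := ⟨_, rfl⟩
  have hfin1 : Fin0 y (fun P => ((P.ord (φ v g) : ℤ) : ℚ)) := by
    refine (finite_ord hy hφg).subset ?_
    rintro P ⟨hP, h1⟩
    refine ⟨hP, fun h2 => h1 ?_⟩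
    show ((P.ord (φ v g) : ℤ) : ℚ) = 0
    rw [h2, Int.cast_zero]
  have hfin2 : Fin0 y (fun P => (s : ℚ) * dv (Hv v) P) := Fin0.smul (y := y) (dv_fin _) _
  have hEeff : Effective y E := by
    constructor
    · intro P hP
      have e1 := hgs (comap (φ v) P) ((hps v _ _ fun _ => rfl).2 hP)
      have e3 : (comap (φ v) P = P0.1) ↔ (P = P1.1) := by
        rw [hP1']
        constructor
        · intro h1
          rw [← h1, comapG_inv' h]
        · intro h1
          rw [h1, comapG_inv h]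
      rw [comap_ord] at e1
      simp only [e3] at e1
      rw [hE]
      simp only
      rw [hHv, dvG_map h hps v HF hP, ← hHF _ ((hps v _ _ fun _ => rfl).2 hP)]
      linarith
    · rw [hE]
      exact Fin0.sub (Fin0.add hfin1 hfin2) (fin_single _ _)
  have hclsE : cls y (cQ c) E = (s : ℚ) • cls y (cQ c) (dv (Hv v)) - cQ c P1.1 := by
    rw [hE, cls_sub (Fin0.add hfin1 hfin2) (fin_single _ _), cls_add hfin1 hfin2,
      princG hc hφg, cls_smul, cls_single P1.2, zero_add, one_smul]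
  have hx : toR (cQ c P1.1) ∈ closure (effSet y (cQ c)) := by
    refine subset_closure ?_
    have h1 := eff_mem (c := cQ c) (single_eff P1)
    rwa [cls_single P1.2, one_smul] at h1
  have h3 := hcb _ hx _ (subset_closure (eff_mem (c := cQ c) hEeff))
  rw [← toR_add, hclsE, add_sub_cancel, toR_smul, norm_smul] at h3
  have h4 : ‖(((s : ℚ)) : ℝ)‖ = s := by
    rw [Real.norm_of_nonneg (by positivity)]
    push_cast
    rfl
  rw [h4] at h3
  have h5 := hcb _ (hmem v) _ (hmem v⁻¹)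
  obtain ⟨S, hS⟩ : ∃ S, S = ‖rc c (Hv v) + rc c (Hv v⁻¹)‖ := ⟨_, rfl⟩
  rw [← hS] at h5 ⊢
  have h6 : ‖toR (cQ c P1.1)‖ ≤ s / c0 / c0 * S := by
    have h7 : ‖rc c (Hv v)‖ ≤ S / c0 := by
      rw [le_div_iff₀ hc0, mul_comm]
      exact h5
    have h8 : c0 * ‖toR (cQ c P1.1)‖ ≤ s * (S / c0) :=
      h3.trans (mul_le_mul_of_nonneg_left h7 (Nat.cast_nonneg _))
    have h9 : ‖toR (cQ c P1.1)‖ ≤ s * (S / c0) / c0 := by
      rw [le_div_iff₀ hc0, mul_comm]
      exact h8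
    refine h9.trans (le_of_eq ?_)
    ring
  have h7 : ∀ j, |((c P1.1 j : ℤ) : ℝ)| ≤ s / c0 / c0 * S := by
    intro j
    have h8 := norm_le_pi_norm (toR (cQ c P1.1)) j
    have h9 : ‖toR (cQ c P1.1) j‖ = |((c P1.1 j : ℤ) : ℝ)| := by
      rw [Real.norm_eq_abs]
      congr 1
    rw [h9] at h8
    exact h8.trans h6
  refine (Finset.sum_le_sum fun j _ => h7 j).trans (le_of_eq ?_)
  rw [Finset.sum_const, Finset.card_univ, Fintype.card_fin, nsmul_eq_mul]
  ring

end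

/-- The degrees of the elements of a group of isomorphisms in codimension one are comparable to the
norms of integral matrices; and the matrices are bounded by the sum of the images of a vector under
the matrix and its inverse. -/
theorem matS {K : Type} [Field K] [Algebra ℂ K] {N n : ℕ} {y : Fin (N + 1) → K}
    (hy : NormalModel y) (hn : Algebra.trdeg ℂ K = n) (h0 : 0 < n) {ρ : ℕ}
    {c : Place ℂ K → Fin ρ → ℤ} (hc : NumClasses y c)
    {G : Type} [Group G] {φ : G → (K ≃ₐ[ℂ] K)} (h : ∀ u v, φ (u * v) = φ u * φ v)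
    (hps : ∀ v, PseudoAut (φ v) y) :
    ∃ (ρ' : ℕ) (M : G → Matrix (Fin ρ') (Fin ρ') ℤ) (x : Fin ρ' → ℤ) (C : ℝ), ρ' ≤ ρ ∧ 0 < C ∧
      M 1 = 1 ∧ (∀ u v, M (u * v) = M u * M v) ∧
      (∀ v, mixedDegree (φ v) y n 1 ≤ ENNReal.ofReal (C * (nr (im (M v)) + 1))) ∧
      (∀ v (D : ℕ), mixedDegree (φ v) y n 1 ≤ D → nr (im (M v)) ≤ C * D) ∧
      (∀ v, nr (im (M v)) ≤ C * nv ((im (M v + M v⁻¹)).mulVec (iv x))) ∧
      ∀ v, M v = 1 → ∀ P, IsPrimeDivisor y P → c (comap (φ v⁻¹) P) = c P := by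
  classical
  have hUp : S_Up := Pool.Agent.N273.PA.up
  have hLow : S_Low := Pool.Agent.N769.PA.low
  obtain ⟨i, hi⟩ := hy.ne
  obtain ⟨Hy, hHe, hH⟩ := exists_hyp hy hi
  obtain ⟨HF, hHF⟩ := hyfin hy hHe hH
  obtain ⟨ρ', M, F, R, B, C0, hρ, hR, hRB, hC0, hM0, hM, h3, h4, h5⟩ := algS (QQ y) ρ G
    (fun P => c P.1) (pimG h hps) (pimG_mul h hps) (fun v D hD => kernG hy h hps hc v D hD)
  obtain ⟨CU, hCU, hUb⟩ := upperG hUp hy hn h0 hi hHe hH hc h hps hC0 h4 h5
  choose CL hCL hLb using fun P0 : QQ y => lowerG hLow hy hn h0 hi hHe hH hc h hps P0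
  choose CS hCS hSb using fun P0 : QQ y => sal_prime hy hi hHe hH hc h hps hHF P0
  have hS : 0 ≤ ∑ P ∈ F, CL P := Finset.sum_nonneg fun P _ => hCL P
  have hS' : 0 ≤ ∑ P ∈ F, CS P := Finset.sum_nonneg fun P _ => hCS P
  obtain ⟨b, hb⟩ : ∃ b : ℝ, b = ∑ j, ∑ k, |(B j k : ℝ)| := ⟨_, rfl⟩
  have hb0 : 0 ≤ b := by
    rw [hb]
    exact Finset.sum_nonneg fun _ _ => Finset.sum_nonneg fun _ _ => abs_nonneg _
  obtain ⟨C, hC⟩ : ∃ C : ℝ, C = CU + C0 * (∑ P ∈ F, CL P) + C0 * ((∑ P ∈ F, CS P) * b) + 1 :=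
    ⟨_, rfl⟩
  have g1 : 0 ≤ C0 * (∑ P ∈ F, CL P) := by positivity
  have g2 : 0 ≤ C0 * ((∑ P ∈ F, CS P) * b) := by positivity
  refine ⟨ρ', M, R HF, C, hρ, by rw [hC]; positivity, hM0, hM, fun v => ?_, fun v D hD => ?_,
    fun v => ?_, fun v hv P hP => ?_⟩
  · refine (hUb v).trans (ENNReal.ofReal_le_ofReal ?_)
    refine mul_le_mul_of_nonneg_right ?_ (add_nonneg (nr_nonneg _) zero_le_one)
    rw [hC]
    linarith
  · refine (h3 v).trans ?_
    have e1 : ∑ P ∈ F, ∑ i, |(c (pimG h hps v P).1 i : ℝ)| ≤ (∑ P ∈ F, CL P) * D := by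
      rw [Finset.sum_mul]
      exact Finset.sum_le_sum fun P _ => hLb P v D hD
    refine (mul_le_mul_of_nonneg_left e1 hC0.le).trans ?_
    rw [← mul_assoc]
    refine mul_le_mul_of_nonneg_right ?_ (Nat.cast_nonneg _)
    rw [hC]
    linarith
  · refine (h3 v).trans ?_
    obtain ⟨S, hSdef⟩ : ∃ S, S = ‖rc c (HF.mapDomain (pimG h hps v)) +
        rc c (HF.mapDomain (pimG h hps v⁻¹))‖ := ⟨_, rfl⟩
    have hS0 : 0 ≤ S := by rw [hSdef]; exact norm_nonneg _
    have e1 : ∑ P ∈ F, ∑ i, |(c (pimG h hps v P).1 i : ℝ)| ≤ (∑ P ∈ F, CS P) * S := by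
      rw [Finset.sum_mul, hSdef]
      exact Finset.sum_le_sum fun P _ => hSb P v
    have e2 : S ≤ b * nv ((im (M v + M v⁻¹)).mulVec (iv (R HF))) := by
      rw [hSdef]
      refine (pi_norm_le_iff_of_nonneg (mul_nonneg hb0 (nv_nonneg _))).2 fun k => ?_
      have e3 : ∀ v, rc c (HF.mapDomain (pimG h hps v)) k =
          ∑ j, ((((M v).mulVec (R HF)) j : ℤ) : ℝ) * (B j k : ℝ) := by
        intro v
        rw [rc_apply]
        have e4 : ic c (HF.mapDomain (pimG h hps v)) =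
            ∑ j, R (HF.mapDomain (pimG h hps v)) j • B j := hRB _
        rw [e4, hR, Finset.sum_apply]
        push_cast
        exact Finset.sum_congr rfl fun j _ => by rw [Pi.smul_apply, smul_eq_mul]; push_cast; rfl
      rw [Pi.add_apply, e3, e3, ← Finset.sum_add_distrib, Real.norm_eq_abs]
      refine (Finset.abs_sum_le_sum_abs _ _).trans ?_
      rw [hb, Finset.sum_mul]
      refine Finset.sum_le_sum fun j _ => ?_
      rw [← add_mul, abs_mul, mul_comm]
      have e5 : ((((M v).mulVec (R HF)) j : ℤ) : ℝ) + ((((M v⁻¹).mulVec (R HF)) j : ℤ) : ℝ) =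
          ((im (M v + M v⁻¹)).mulVec (iv (R HF))) j := by
        rw [im_mulVec, Matrix.add_mulVec]
        unfold iv
        rw [Pi.add_apply]
        push_cast
        rfl
      rw [e5]
      exact mul_le_mul (Finset.single_le_sum (f := fun k => |(B j k : ℝ)|)
        (fun _ _ => abs_nonneg _) (Finset.mem_univ k)) (ventry_le _ j) (abs_nonneg _)
        (Finset.sum_nonneg fun _ _ => abs_nonneg _)
    refine (mul_le_mul_of_nonneg_left (e1.trans (mul_le_mul_of_nonneg_left e2 hS')) hC0.le).trans ?_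
    rw [← mul_assoc (∑ P ∈ F, CS P), ← mul_assoc]
    refine mul_le_mul_of_nonneg_right ?_ (nv_nonneg _)
    rw [hC]
    linarith
  · have e1 := hRB ((Finsupp.single (⟨P, hP⟩ : QQ y) 1).mapDomain (pimG h hps v))
    have e2 := hRB (Finsupp.single (⟨P, hP⟩ : QQ y) 1)
    rw [hR, hv, Matrix.one_mulVec, ← e2, Finsupp.mapDomain_single,
      Finsupp.sum_single_index (by rw [zero_smul]), Finsupp.sum_single_index (by rw [zero_smul]),
      one_smul, one_smul] at e1
    exact e1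

end

end Run7.h913.ST
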