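import Pool.Agent.Run7.h913.ST.Dir
import Pool.Agent.N572.PA.Alg

/-!
Groups of matrices whose norms grow at most quadratically in the word length, part 6: the structure
theorem.
-/

set_option autoImplicit false

open Matrix Module

namespace Run7.h913.ST

section

theorem hom_pr {Γ B : Type} [Group Γ] [AddCommGroup B] (F : Γ →* Multiplicative B) {r : ℕ}
    (a : Fin r → Γ) (z : Fin r → ℤ) :
    Multiplicative.toAdd (F (List.ofFn fun i => a i ^ z i).prod) =
      ∑ i, z i • Multiplicative.toAdd (F (a i)) := by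
  rw [map_list_prod, List.map_ofFn, List.prod_ofFn, toAdd_prod]
  refine Finset.sum_congr rfl fun i _ => ?_
  rw [Function.comp_apply, map_zpow, toAdd_zpow]

variable {ρ : ℕ} {G : Type} [Group G] {M : G → Matrix (Fin ρ) (Fin ρ) ℤ} {x : Fin ρ → ℤ} {C : ℝ}

/-- the vectors `lg g x` -/
noncomputable def Sys.lat (h : Sys M x C) : Submodule ℤ (Fin ρ → ℤ) where
  carrier := {v | ∃ g : h.sub, (lg M (g : G)).mulVec x = v}
  add_mem' := by
    rintro _ _ ⟨g, rfl⟩ ⟨k, rfl⟩
    exact ⟨g * k, by rw [Subgroup.coe_mul, h.lg_mul g.2 k.2, Matrix.add_mulVec]⟩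
  zero_mem' := ⟨1, by rw [Subgroup.coe_one, h.lg_one, Matrix.zero_mulVec]⟩
  smul_mem' := by
    rintro c _ ⟨g, rfl⟩
    refine ⟨g ^ c, ?_⟩
    have h1 : Multiplicative.toAdd (h.lgH (g ^ c)) = c • Multiplicative.toAdd (h.lgH g) := by
      rw [map_zpow, toAdd_zpow]
    have h2 : lg M ((g ^ c : h.sub) : G) = c • lg M (g : G) := h1
    rw [h2, Matrix.smul_mulVec]

/-- **The structure theorem** for groups of integral matrices with quadratic growth. -/
theorem Sys.struct (h : Sys M x C) : ∃ (r : ℕ) (Φ : h.sub →* Multiplicative (Fin r → ℤ)) (C' : ℝ),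
    0 < C' ∧ Function.Surjective Φ ∧ (r = 0 ∨ r + 2 ≤ ρ) ∧ (∀ g : h.sub, Φ g = 1 ↔ M g = 1) ∧
    ∀ g : h.sub, (∑ i, |((Multiplicative.toAdd (Φ g) i : ℤ) : ℝ)|) ^ 2 ≤ C' * (nr (im (M g)) + 1) ∧
      nr (im (M g)) ≤ C' * ((∑ i, |((Multiplicative.toAdd (Φ g) i : ℤ) : ℝ)|) ^ 2 + 1) := by
  classical
  obtain ⟨r, b, -, -, -⟩ := Pool.Agent.N572.PA.lattice_coord h.lat
  have hmem : ∀ g : h.sub, (lg M (g : G)).mulVec x ∈ h.lat := fun g => ⟨g, rfl⟩
  choose a ha using fun i : Fin r => (b i).2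
  -- the product with given coordinates
  obtain ⟨q, hq⟩ : ∃ q : (Fin r → ℤ) → h.sub, ∀ z, q z = (List.ofFn fun i => a i ^ z i).prod :=
    ⟨_, fun _ => rfl⟩
  have hlq : ∀ z, lg M (q z : G) = ∑ i, z i • lg M (a i : G) := by
    intro z
    have h1 := hom_pr h.lgH a z
    rw [← hq] at h1
    exact h1
  have heq : ∀ z, (lg M (q z : G)).mulVec x = ∑ i, z i • ((b i : h.lat) : Fin ρ → ℤ) := by
    intro z
    rw [hlq, Matrix.sum_mulVec]
    refine Finset.sum_congr rfl fun i _ => ?_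
    rw [Matrix.smul_mulVec, ha]
  -- the homomorphism
  obtain ⟨ψ, hψ⟩ : ∃ ψ : h.sub → Fin r → ℤ, ∀ g, ψ g = b.equivFun ⟨_, hmem g⟩ :=
    ⟨_, fun _ => rfl⟩
  have hψm : ∀ g k, ψ (g * k) = ψ g + ψ k := by
    intro g k
    rw [hψ, hψ, hψ, ← map_add]
    congr 1
    refine Subtype.ext ?_
    change (lg M ((g * k : h.sub) : G)).mulVec x = (lg M (g : G)).mulVec x + (lg M (k : G)).mulVec x
    rw [Subgroup.coe_mul, h.lg_mul g.2 k.2, Matrix.add_mulVec]
  have hψq : ∀ z, ψ (q z) = z := by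
    intro z
    rw [hψ]
    have h1 : (⟨_, hmem (q z)⟩ : h.lat) = ∑ i, z i • b i := by
      refine Subtype.ext ?_
      change (lg M (q z : G)).mulVec x = _
      rw [heq]
      simp
    rw [h1, map_sum]
    funext j
    rw [Finset.sum_apply]
    simp [Finsupp.single_apply]
  -- equality of coordinates
  have hker : ∀ g : h.sub, ψ g = 0 → M (g : G) = 1 := by
    intro g hg
    rw [hψ] at hg
    have h1 := (LinearEquiv.map_eq_zero_iff _).1 hg
    have h2 : (lg M (g : G)).mulVec x = 0 := congrArg Subtype.val h1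
    exact h.van1 g.2 h2
  have hker' : ∀ g : h.sub, M (g : G) = 1 → ψ g = 0 := by
    intro g hg
    rw [hψ]
    have h1 : (⟨_, hmem g⟩ : h.lat) = 0 := by
      refine Subtype.ext ?_
      change (lg M (g : G)).mulVec x = 0
      unfold lg
      rw [hg]
      simp
    rw [h1, map_zero]
  have hone : ψ 1 = 0 := hker' 1 h.one
  have hMq : ∀ g : h.sub, lg M (g : G) = lg M (q (ψ g) : G) := by
    intro g
    have h1 : ψ (g * (q (ψ g))⁻¹) = 0 := by
      have h2 := hψm (g * (q (ψ g))⁻¹) (q (ψ g))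
      rw [inv_mul_cancel_right, hψq] at h2
      exact (left_eq_add.1 (by rw [add_comm]; exact h2))
    have h2 := hker _ h1
    have h3 : lg M ((g * (q (ψ g))⁻¹ : h.sub) : G) = 0 := by
      unfold lg
      rw [h2]
      simp
    have h4 := h.lg_mul (g * (q (ψ g))⁻¹).2 (q (ψ g)).2
    rw [← Subgroup.coe_mul, inv_mul_cancel_right, h3, zero_add] at h4
    exact h4
  -- the real matrices
  obtain ⟨W, hW⟩ : ∃ W : Fin r → Matrix (Fin ρ) (Fin ρ) ℤ, ∀ i, W i = lg M (a i : G) :=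
    ⟨_, fun _ => rfl⟩
  have hNN : ∀ z : Fin r → ℤ, NN W (iv z) = im (lg M (q z : G)) := by
    intro z
    rw [hlq, map_sum]
    unfold NN
    refine Finset.sum_congr rfl fun i _ => ?_
    rw [hW]
    ext j k
    rw [Matrix.smul_apply, im_apply, im_apply, Matrix.smul_apply, smul_eq_mul, smul_eq_mul, iv]
    push_cast
    rfl
  obtain ⟨C1, hC1, hmain⟩ := h.main
  have hdef : ∀ t : Fin r → ℝ, (NN W t * NN W t).mulVec (iv x) = 0 → t = 0 := by
    intro t ht
    refine definite hC1 (fun z => ?_) (fun z hz => ?_) ht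
    · rw [hNN]
      exact hmain _ (q z).2
    · rw [hNN] at hz
      have h1 := eq_zero_of_small hz
      have h2 := h.van1 (q z).2 (by rw [h1, Matrix.zero_mulVec])
      have h3 := hker' _ h2
      rwa [hψq] at h3
  obtain ⟨δ, hδ, hlow⟩ := lower hdef
  obtain ⟨B, hB⟩ : ∃ B : ℝ, B = ∑ i, nr (im (W i)) := ⟨_, rfl⟩
  have hB0 : 0 ≤ B := by rw [hB]; exact Finset.sum_nonneg fun _ _ => nr_nonneg _
  have hlgB : ∀ g : h.sub, nr (im (lg M (g : G))) ≤ B * nv (iv (ψ g)) := by
    intro g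
    rw [hMq g, ← hNN, hB]
    exact NN_le _ _
  have hx := nv_nonneg (iv x)
  -- the bounds
  have hup : ∀ g : h.sub, nr (im (M (g : G))) ≤
      (nr (1 : Matrix (Fin ρ) (Fin ρ) ℝ) + B + B ^ 2) * (nv (iv (ψ g)) ^ 2 + 1) := by
    intro g
    rw [h.exp g.2]
    have h1 := hlgB g
    have h0 := nr_nonneg (im (lg M (g : G)))
    obtain ⟨s, hs⟩ : ∃ s, s = nv (iv (ψ g)) := ⟨_, rfl⟩
    have hs0 : 0 ≤ s := by rw [hs]; exact nv_nonneg _
    rw [← hs] at h1 ⊢
    have h2 := nr_nonneg (1 : Matrix (Fin ρ) (Fin ρ) ℝ)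
    have h3 : nr (1 + (1 / 2 : ℝ) • im (lg M (g : G)) +
        (1 / 8 : ℝ) • (im (lg M (g : G)) * im (lg M (g : G)))) ≤
        nr (1 : Matrix (Fin ρ) (Fin ρ) ℝ) + 1 / 2 * (B * s) + 1 / 8 * ((B * s) * (B * s)) := by
      refine (nr_add _ _).trans (add_le_add ((nr_add _ _).trans (add_le_add le_rfl ?_)) ?_)
      · rw [nr_smul, abs_of_nonneg (by norm_num)]
        linarith
      · rw [nr_smul, abs_of_nonneg (by norm_num)]
        have h4 := (nr_mul (im (lg M (g : G))) (im (lg M (g : G)))).trans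
          (mul_le_mul h1 h1 h0 (h0.trans h1))
        linarith
    refine h3.trans ?_
    have h4 : 0 ≤ nr (1 : Matrix (Fin ρ) (Fin ρ) ℝ) * s ^ 2 := by positivity
    have h5 : B * s ≤ B * (s ^ 2 + 1) := by
      refine mul_le_mul_of_nonneg_left ?_ hB0
      nlinarith [sq_nonneg (s - 1)]
    have h6 : 0 ≤ B * s := mul_nonneg hB0 hs0
    have h7 : 0 ≤ (B * s) ^ 2 := sq_nonneg _
    nlinarith
  have hlow' : ∀ g : h.sub, ∃ y : Fin ρ → ℝ, δ * nv (iv (ψ g)) ^ 2 ≤ nv y ∧
      nv y ≤ 4 * ((2 * nr (im (M (g : G))) + 2 * nr (1 : Matrix (Fin ρ) (Fin ρ) ℝ) +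
        B * nv (iv (ψ g))) * nv (iv x)) := by
    intro g
    refine ⟨_, hlow (iv (ψ g)), ?_⟩
    rw [hNN, ← hMq g]
    have e1 : im (lg M (g : G)) * im (lg M (g : G)) =
        (4 : ℝ) • (im (M (g : G)) + im (M (g : G)) - (1 + 1) - im (lg M (g : G))) := by
      rw [← map_mul, h.lg_sq g.2]
      unfold lg
      ext i j
      simp only [im_apply, Matrix.smul_apply, Matrix.add_apply, Matrix.sub_apply, smul_eq_mul]
      push_cast
      rw [Matrix.one_apply, Matrix.one_apply]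
      split_ifs <;> push_cast <;> ring
    rw [e1, Matrix.smul_mulVec, nv_smul, abs_of_nonneg (by norm_num)]
    refine mul_le_mul_of_nonneg_left ?_ (by norm_num)
    refine (nv_mulVec _ _).trans (mul_le_mul_of_nonneg_right ?_ hx)
    refine (nr_sub _ _).trans (add_le_add ((nr_sub _ _).trans (add_le_add ?_ ?_)) (hlgB g))
    · exact (nr_add _ _).trans (by linarith)
    · exact (nr_add _ _).trans (by linarith)
  obtain ⟨X, hX⟩ : ∃ X, X = nv (iv x) := ⟨_, rfl⟩
  obtain ⟨E, hE⟩ : ∃ E, E = nr (1 : Matrix (Fin ρ) (Fin ρ) ℝ) := ⟨_, rfl⟩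
  have hE0 : 0 ≤ E := by rw [hE]; exact nr_nonneg _
  rw [← hX] at hx
  obtain ⟨C2, hC2⟩ : ∃ C2 : ℝ, C2 = 2 / δ * (8 * X + 8 * E * X) + (4 * B * X / δ) ^ 2 := ⟨_, rfl⟩
  have hC20 : 0 ≤ C2 := by rw [hC2]; positivity
  have hlow2 : ∀ g : h.sub, nv (iv (ψ g)) ^ 2 ≤ C2 * (nr (im (M (g : G))) + 1) := by
    intro g
    obtain ⟨y, hy1, hy2⟩ := hlow' g
    obtain ⟨s, hs⟩ : ∃ s, s = nv (iv (ψ g)) := ⟨_, rfl⟩
    have hs0 : 0 ≤ s := by rw [hs]; exact nv_nonneg _
    obtain ⟨m, hm⟩ : ∃ m, m = nr (im (M (g : G))) := ⟨_, rfl⟩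
    have hm0 : 0 ≤ m := by rw [hm]; exact nr_nonneg _
    rw [← hs, ← hX, ← hE, ← hm] at hy2
    rw [← hs] at hy1
    rw [← hs, ← hm]
    have h1 : δ * s ^ 2 ≤ 8 * m * X + 8 * E * X + 4 * B * X * s := by
      refine (hy1.trans hy2).trans (le_of_eq ?_)
      ring
    obtain ⟨u, hu⟩ : ∃ u, u = 4 * B * X / δ := ⟨_, rfl⟩
    have hu1 : 4 * B * X = u * δ := by rw [hu]; field_simp
    have h2 : 4 * B * X * s ≤ δ / 2 * s ^ 2 + δ / 2 * u ^ 2 := by
      rw [hu1]
      nlinarith [sq_nonneg (s - u)]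
    have h3 : δ / 2 * s ^ 2 ≤ 8 * m * X + 8 * E * X + δ / 2 * u ^ 2 := by linarith
    have h4 : s ^ 2 ≤ 2 / δ * (8 * m * X + 8 * E * X) + u ^ 2 := by
      have h5 := mul_le_mul_of_nonneg_left h3 (show 0 ≤ 2 / δ by positivity)
      have h6 : 2 / δ * (δ / 2 * s ^ 2) = s ^ 2 := by field_simp
      have h7 : 2 / δ * (8 * m * X + 8 * E * X + δ / 2 * u ^ 2) =
          2 / δ * (8 * m * X + 8 * E * X) + u ^ 2 := by field_simp
      rw [h6, h7] at h5
      exact h5
    refine h4.trans ?_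
    rw [hC2, ← hu]
    have h5 : 0 ≤ 2 / δ * (8 * E * X) * m := by positivity
    have h6 : 0 ≤ 2 / δ * (8 * X) := by positivity
    have h7 : 0 ≤ u ^ 2 * m := by positivity
    have e1 : (2 / δ * (8 * X + 8 * E * X) + u ^ 2) * (m + 1) =
        2 / δ * (8 * m * X + 8 * E * X) + u ^ 2 + (2 / δ * (8 * E * X) * m) + 2 / δ * (8 * X) +
          u ^ 2 * m := by ring
    rw [e1]
    linarith
  refine ⟨r, MonoidHom.mk' (fun g => Multiplicative.ofAdd (ψ g)) fun g k => by
    rw [hψm, ofAdd_add], C2 + (E + B + B ^ 2) + 1, by positivity, ?_, ?_, ?_, ?_⟩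
  · intro z
    refine ⟨q (Multiplicative.toAdd z), ?_⟩
    rw [MonoidHom.mk'_apply, hψq, ofAdd_toAdd]
  · -- the rank
    rcases Nat.eq_zero_or_pos r with hr | hr
    · exact Or.inl hr
    right
    obtain ⟨i0, -⟩ : ∃ i : Fin r, True := ⟨⟨0, hr⟩, trivial⟩
    obtain ⟨A, hA⟩ : ∃ A, A = lg M (a i0 : G) := ⟨_, rfl⟩
    have hAx : A.mulVec x = ((b i0 : h.lat) : Fin ρ → ℤ) := by rw [hA]; exact ha i0
    have hAAx : (A * A).mulVec x ≠ 0 := by
      intro h0
      rw [hA] at h0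
      have h1 := h.van' (a i0).2 h0
      have h2 := hker' _ h1
      rw [hψ] at h2
      have h3 := (LinearEquiv.map_eq_zero_iff _).1 h2
      have h4 : (lg M (a i0 : G)).mulVec x = 0 := congrArg Subtype.val h3
      rw [ha] at h4
      exact b.ne_zero i0 (Subtype.ext h4)
    have hli : LinearIndependent ℤ (Fin.cons x (Fin.cons ((A * A).mulVec x)
        fun i => ((b i : h.lat) : Fin ρ → ℤ)) : Fin (r + 1 + 1) → Fin ρ → ℤ) := by
      rw [Fintype.linearIndependent_iff]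
      intro w hw
      rw [Fin.sum_univ_succ, Fin.cons_zero, Fin.sum_univ_succ] at hw
      simp only [Fin.cons_succ, Fin.cons_zero] at hw
      obtain ⟨z, hz⟩ : ∃ z : Fin r → ℤ, ∀ i, z i = w i.succ.succ := ⟨_, fun _ => rfl⟩
      have hsum : ∑ i : Fin r, w i.succ.succ • ((b i : h.lat) : Fin ρ → ℤ) =
          (lg M (q z : G)).mulVec x := by
        rw [heq]
        exact Finset.sum_congr rfl fun i _ => by rw [hz]
      rw [hsum] at hw
      have t1 : (A * A) * (A * A) = 0 := by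
        have h1 := h.lg3 (a i0).2 (a i0).2 (a i0).2
        rw [← hA] at h1
        rw [← mul_assoc, h1, zero_mul]
      have t2 : (A * A) * lg M (q z : G) = 0 := by
        rw [hA]
        exact h.lg3 (a i0).2 (a i0).2 (q z).2
      have t3 : lg M (q z : G) * (A * A) = 0 := by
        rw [hA, ← mul_assoc]
        exact h.lg3 (q z).2 (a i0).2 (a i0).2
      have h1 : w 0 = 0 := by
        have h2 := congrArg (fun v => (A * A).mulVec v) hw
        beta_reduce at h2
        rw [Matrix.mulVec_add, Matrix.mulVec_add, Matrix.mulVec_smul, Matrix.mulVec_smul,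
          Matrix.mulVec_mulVec, Matrix.mulVec_mulVec, t1, t2, Matrix.zero_mulVec,
          Matrix.mulVec_zero, smul_zero, add_zero, add_zero] at h2
        exact (smul_eq_zero.1 h2).resolve_right hAAx
      rw [h1, zero_smul, zero_add] at hw
      have h2 : z = 0 := by
        have h3 := congrArg (fun v => (lg M (q z : G)).mulVec v) hw
        beta_reduce at h3
        rw [Matrix.mulVec_add, Matrix.mulVec_smul, Matrix.mulVec_mulVec, Matrix.mulVec_mulVec, t3,
          Matrix.zero_mulVec, Matrix.mulVec_zero, smul_zero, zero_add] at h3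
        have h4 := hker' _ (h.van' (q z).2 h3)
        rwa [hψq] at h4
      have h3 : w (0 : Fin (r + 1)).succ = 0 := by
        rw [h2] at hw
        have h4 : (lg M (q 0 : G)).mulVec x = 0 := by
          rw [heq]
          simp
        rw [h4, add_zero] at hw
        exact (smul_eq_zero.1 hw).resolve_right hAAx
      intro j
      refine Fin.cases h1 (fun j => ?_) j
      refine Fin.cases h3 (fun j => ?_) j
      rw [← hz, h2]
      rfl
    have h1 := hli.fintype_card_le_finrank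
    rw [Fintype.card_fin, Module.finrank_fin_fun] at h1
    omega
  · intro g
    rw [MonoidHom.mk'_apply, ofAdd_eq_one]
    exact ⟨hker g, hker' g⟩
  · intro g
    have h1 : ∑ i, |((Multiplicative.toAdd ((MonoidHom.mk' (fun g => Multiplicative.ofAdd (ψ g))
        fun g k => by rw [hψm, ofAdd_add]) g) i : ℤ) : ℝ)| = nv (iv (ψ g)) := rfl
    rw [h1]
    have h2 := hup g
    rw [← hE] at h2
    have h3 := hlow2 g
    have h4 := nr_nonneg (im (M (g : G)))
    have h5 := sq_nonneg (nv (iv (ψ g)))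
    have h6 : 0 ≤ B ^ 2 := sq_nonneg B
    constructor
    · refine h3.trans (mul_le_mul_of_nonneg_right ?_ (by linarith))
      linarith
    · refine h2.trans (mul_le_mul_of_nonneg_right ?_ (by linarith))
      linarith

end

end Run7.h913.ST
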