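import Pool.Agent.Run7.h913.ST.Nr

/-!
Groups of matrices whose norms grow at most quadratically in the word length, part 2: algebra.
-/

set_option autoImplicit false

open Matrix

namespace Run7.h913.ST

section

variable {ρ : ℕ}

/-- `U ^ m - 1` is `m` times `n` up to multiples of `n ^ 2`, `n = U - 1` -/
theorem pow_sub (n : Matrix (Fin ρ) (Fin ρ) ℝ) (m : ℕ) : ∃ T : Matrix (Fin ρ) (Fin ρ) ℝ, Commute n T ∧
    (1 + n) ^ m - 1 = n * ((m : ℝ) • 1 + n * T) := by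
  induction m with
  | zero =>
    refine ⟨0, Commute.zero_right n, ?_⟩
    simp
  | succ m ih =>
    obtain ⟨T, hT, h⟩ := ih
    have h' : (1 + n) ^ m = 1 + n * ((m : ℝ) • 1 + n * T) := by rw [← h]; abel
    refine ⟨(m : ℝ) • 1 + T + n * T, ?_, ?_⟩
    · exact ((Commute.smul_right (Commute.one_right n) _).add_right hT).add_right
        ((Commute.refl n).mul_right hT)
    · have hT' : n * T = T * n := hT
      rw [pow_succ, h']
      push_cast
      simp only [add_smul, one_smul, mul_add, add_mul, mul_one, one_mul, smul_mul_assoc,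
        mul_smul_comm]
      have e1 : n * (n * T) * n = n * (n * (n * T)) := by
        rw [mul_assoc, mul_assoc, ← hT']
      rw [e1]
      abel

/-- the powers of `S_m` against the highest power of `n` -/
theorem top_pow {n S : Matrix (Fin ρ) (Fin ρ) ℝ} {a : ℝ} {T : Matrix (Fin ρ) (Fin ρ) ℝ} (hS : S = a • 1 + n * T) {d : ℕ}
    (hd : n ^ (d + 1) = 0) (e : ℕ) : n ^ d * S ^ e = (a ^ e) • n ^ d := by
  have h1 : n ^ d * S = a • n ^ d := by
    rw [hS, mul_add, mul_smul_comm, mul_one, ← mul_assoc, ← pow_succ, hd, zero_mul, add_zero]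
  induction e with
  | zero => rw [pow_zero, mul_one, pow_zero, one_smul]
  | succ e ih => rw [pow_succ, ← mul_assoc, ih, smul_mul_assoc, h1, smul_smul, pow_succ]

/-- nilpotent and of quadratic growth: the third power vanishes -/
theorem cube_zero {n : Matrix (Fin ρ) (Fin ρ) ℝ} (hn : IsNilpotent n) (hQ : QB fun m => (1 + n) ^ m) : n ^ 3 = 0 := by
  -- the step
  have step : ∀ d : ℕ, 3 ≤ d → n ^ (d + 1) = 0 → n ^ d = 0 := by
    intro d hd h0
    refine QB.eq_zero hd (?_ : QB fun m => ((m : ℝ) ^ d) • n ^ d)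
    have h1 : ∀ m : ℕ, ((m : ℝ) ^ d) • n ^ d = ((1 + n) ^ m - 1) ^ d := by
      intro m
      obtain ⟨T, hT, h⟩ := pow_sub n m
      rw [h, ← top_pow rfl h0 d]
      refine (Commute.mul_pow ?_ d).symm
      exact ((Commute.smul_right (Commute.one_right n) _).add_right
        ((Commute.refl n).mul_right hT))
    refine QB.congr (X := fun m => ((1 + n) ^ m - 1) ^ d) ?_ h1
    have h2 : ∀ m : ℕ, ((1 + n) ^ m - 1) ^ d =
        ∑ j ∈ Finset.range (d + 1), ((-1 : ℝ) ^ (d - j) * (d.choose j : ℝ)) • (1 + n) ^ (j * m) := by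
      intro m
      rw [sub_eq_add_neg, (Commute.neg_right (Commute.one_right _)).add_pow]
      refine Finset.sum_congr rfl fun j _ => ?_
      rw [← pow_mul, mul_comm m j]
      have e1 : ((-1 : Matrix (Fin ρ) (Fin ρ) ℝ)) ^ (d - j) = ((-1 : ℝ) ^ (d - j)) • (1 : Matrix (Fin ρ) (Fin ρ) ℝ) := by
        rcases neg_one_pow_eq_or ℝ (d - j) with h | h
        · have h' : Even (d - j) := by
            by_contra hc
            rw [Nat.not_even_iff_odd] at hc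
            rw [hc.neg_one_pow] at h
            norm_num at h
          rw [h'.neg_one_pow, h'.neg_one_pow, one_smul]
        · have h' : Odd (d - j) := by
            by_contra hc
            rw [Nat.not_odd_iff_even] at hc
            rw [hc.neg_one_pow] at h
            norm_num at h
          rw [h'.neg_one_pow, h'.neg_one_pow, neg_one_smul]
      rw [e1, mul_smul_comm, mul_one, mul_comm ((-1 : ℝ) ^ (d - j)) _, mul_smul, smul_comm]
      rw [smul_mul_assoc, ← nsmul_eq_mul']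
      rw [← Nat.cast_smul_eq_nsmul ℝ, smul_comm]
    refine QB.congr (QB.sum (Finset.range (d + 1)) fun j _ => ?_) h2
    exact (hQ.comp j).smul _
  obtain ⟨k, hk⟩ := hn
  by_contra hcon
  have hex : ∃ k, n ^ k = 0 := ⟨k, hk⟩
  classical
  obtain ⟨k0, hk0⟩ : ∃ k0, k0 = Nat.find hex := ⟨_, rfl⟩
  have h1 : n ^ k0 = 0 := by rw [hk0]; exact Nat.find_spec hex
  have h2 : 4 ≤ k0 := by
    by_contra h3
    push Not at h3
    refine hcon ?_
    have : n ^ 3 = n ^ k0 * n ^ (3 - k0) := by rw [← pow_add]; congr 1; omega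
    rw [this, h1, zero_mul]
  have h3 := step (k0 - 1) (by omega) (by rw [show k0 - 1 + 1 = k0 by omega]; exact h1)
  exact Nat.find_min hex (by omega : k0 - 1 < Nat.find hex) h3

/-- the coefficient of `n ^ 2` -/
noncomputable def c2 (m : ℕ) : ℝ := (m : ℝ) * (m - 1) / 2

theorem pow_eq {n : Matrix (Fin ρ) (Fin ρ) ℝ} (hn : n ^ 3 = 0) (m : ℕ) :
    (1 + n) ^ m = 1 + (m : ℝ) • n + c2 m • n ^ 2 := by
  have h3 : n ^ 2 * n = 0 := by rw [← pow_succ]; exact hn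
  have h2 : n * n = n ^ 2 := (sq n).symm
  induction m with
  | zero => simp [c2]
  | succ m ih =>
    rw [pow_succ, ih]
    have e : c2 (m + 1) = c2 m + m := by
      unfold c2
      push_cast
      ring
    rw [e]
    push_cast
    simp only [mul_add, add_mul, mul_one, one_mul, smul_mul_assoc, h3, h2, smul_zero, add_zero,
      add_smul, one_smul]
    abel

theorem pow_sub' {n : Matrix (Fin ρ) (Fin ρ) ℝ} (hn : n ^ 3 = 0) (m : ℕ) :
    (1 + n) ^ m - 1 = (m : ℝ) • n + c2 m • n ^ 2 := by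
  rw [pow_eq hn]
  abel

theorem sq_eq {n : Matrix (Fin ρ) (Fin ρ) ℝ} (hn : n ^ 3 = 0) (m : ℕ) :
    ((1 + n) ^ m - 1) * ((1 + n) ^ m - 1) = ((m : ℝ) ^ 2) • n ^ 2 := by
  have h3 : n ^ 2 * n = 0 := by rw [← pow_succ]; exact hn
  have h3' : n * n ^ 2 = 0 := by rw [← pow_succ']; exact hn
  have h4 : n ^ 2 * n ^ 2 = 0 := by rw [sq n, ← mul_assoc, mul_assoc n n n, ← sq n, h3', zero_mul]
  have h2 : n * n = n ^ 2 := (sq n).symm
  rw [pow_sub' hn]
  simp only [mul_add, add_mul, smul_mul_assoc, mul_smul_comm, h3, h3', h4, h2, smul_zero,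
    add_zero, smul_smul]
  rw [← sq]

/-- two elements: `a² b² = 0` -/
theorem two_two {a b : Matrix (Fin ρ) (Fin ρ) ℝ} (ha : a ^ 3 = 0) (hb : b ^ 3 = 0)
    (hQ : ∀ p q : ℕ, QB fun m => (1 + a) ^ (p * m) * (1 + b) ^ (q * m)) :
    a ^ 2 * b ^ 2 = 0 := by
  refine QB.eq_zero (d := 4) (by norm_num) ?_
  have h1 : ∀ m : ℕ, ((m : ℝ) ^ 4) • (a ^ 2 * b ^ 2) =
      (((1 + a) ^ m - 1) * ((1 + a) ^ m - 1)) * (((1 + b) ^ m - 1) * ((1 + b) ^ m - 1)) := by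
    intro m
    rw [sq_eq ha, sq_eq hb, smul_mul_smul_comm, ← pow_add]
  refine QB.congr ?_ h1
  have h2 : ∀ m : ℕ, (((1 + a) ^ m - 1) * ((1 + a) ^ m - 1)) * (((1 + b) ^ m - 1) *
      ((1 + b) ^ m - 1)) =
      ((((1 + a) ^ (2 * m) * (1 + b) ^ (2 * m)) - (2 : ℝ) • ((1 + a) ^ (2 * m) * (1 + b) ^ (1 * m)) +
        ((1 + a) ^ (2 * m) * (1 + b) ^ (0 * m))) -
       (2 : ℝ) • (((1 + a) ^ (1 * m) * (1 + b) ^ (2 * m)) -
          (2 : ℝ) • ((1 + a) ^ (1 * m) * (1 + b) ^ (1 * m)) +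
        ((1 + a) ^ (1 * m) * (1 + b) ^ (0 * m)))) +
       (((1 + a) ^ (0 * m) * (1 + b) ^ (2 * m)) - (2 : ℝ) • ((1 + a) ^ (0 * m) * (1 + b) ^ (1 * m)) +
        ((1 + a) ^ (0 * m) * (1 + b) ^ (0 * m))) := by
    intro m
    have e1 : ∀ x : Matrix (Fin ρ) (Fin ρ) ℝ, x ^ (2 * m) = x ^ m * x ^ m := fun x => by rw [two_mul, pow_add]
    have e2 : ∀ x : Matrix (Fin ρ) (Fin ρ) ℝ, x ^ (1 * m) = x ^ m := fun x => by rw [one_mul]
    have e3 : ∀ x : Matrix (Fin ρ) (Fin ρ) ℝ, x ^ (0 * m) = 1 := fun x => by rw [zero_mul, pow_zero]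
    rw [e1, e1, e2, e2, e3, e3]
    simp only [two_smul]
    noncomm_ring
  refine QB.congr ?_ h2
  exact (((((hQ 2 2).sub ((hQ 2 1).smul 2)).add (hQ 2 0)).sub
    ((((hQ 1 2).sub ((hQ 1 1).smul 2)).add (hQ 1 0)).smul 2))).add
    (((hQ 0 2).sub ((hQ 0 1).smul 2)).add (hQ 0 0))

/-- two elements: `a² b = 0` -/
theorem two_one {a b : Matrix (Fin ρ) (Fin ρ) ℝ} (ha : a ^ 3 = 0) (hb : b ^ 3 = 0)
    (hQ : ∀ p q : ℕ, QB fun m => (1 + a) ^ (p * m) * (1 + b) ^ (q * m)) :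
    a ^ 2 * b = 0 := by
  have h22 := two_two ha hb hQ
  refine QB.eq_zero (d := 3) le_rfl ?_
  have h1 : ∀ m : ℕ, ((m : ℝ) ^ 3) • (a ^ 2 * b) =
      (((1 + a) ^ m - 1) * ((1 + a) ^ m - 1)) * ((1 + b) ^ m - 1) := by
    intro m
    rw [sq_eq ha, pow_sub' hb]
    simp only [mul_add, smul_mul_assoc, mul_smul_comm, h22, smul_zero, add_zero, smul_smul]
    rw [← pow_succ']
  refine QB.congr ?_ h1
  have h2 : ∀ m : ℕ, (((1 + a) ^ m - 1) * ((1 + a) ^ m - 1)) * ((1 + b) ^ m - 1) =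
      ((((1 + a) ^ (2 * m) * (1 + b) ^ (1 * m)) - ((1 + a) ^ (2 * m) * (1 + b) ^ (0 * m))) -
       (2 : ℝ) • (((1 + a) ^ (1 * m) * (1 + b) ^ (1 * m)) -
        ((1 + a) ^ (1 * m) * (1 + b) ^ (0 * m)))) +
       (((1 + a) ^ (0 * m) * (1 + b) ^ (1 * m)) - ((1 + a) ^ (0 * m) * (1 + b) ^ (0 * m))) := by
    intro m
    have e1 : ∀ x : Matrix (Fin ρ) (Fin ρ) ℝ, x ^ (2 * m) = x ^ m * x ^ m := fun x => by rw [two_mul, pow_add]
    have e2 : ∀ x : Matrix (Fin ρ) (Fin ρ) ℝ, x ^ (1 * m) = x ^ m := fun x => by rw [one_mul]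
    have e3 : ∀ x : Matrix (Fin ρ) (Fin ρ) ℝ, x ^ (0 * m) = 1 := fun x => by rw [zero_mul, pow_zero]
    rw [e1, e2, e2, e3, e3]
    simp only [two_smul]
    noncomm_ring
  refine QB.congr ?_ h2
  exact ((((hQ 2 1).sub (hQ 2 0)).sub (((hQ 1 1).sub (hQ 1 0)).smul 2))).add
    ((hQ 0 1).sub (hQ 0 0))

/-- two elements: `a b² = 0` -/
theorem one_two {a b : Matrix (Fin ρ) (Fin ρ) ℝ} (ha : a ^ 3 = 0) (hb : b ^ 3 = 0)
    (hQ : ∀ p q : ℕ, QB fun m => (1 + a) ^ (p * m) * (1 + b) ^ (q * m)) :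
    a * b ^ 2 = 0 := by
  have h22 := two_two ha hb hQ
  refine QB.eq_zero (d := 3) le_rfl ?_
  have h1 : ∀ m : ℕ, ((m : ℝ) ^ 3) • (a * b ^ 2) =
      ((1 + a) ^ m - 1) * (((1 + b) ^ m - 1) * ((1 + b) ^ m - 1)) := by
    intro m
    rw [sq_eq hb, pow_sub' ha]
    simp only [add_mul, smul_mul_assoc, mul_smul_comm, h22, smul_zero, add_zero, smul_smul]
    rw [← pow_succ]
  refine QB.congr ?_ h1
  have h2 : ∀ m : ℕ, ((1 + a) ^ m - 1) * (((1 + b) ^ m - 1) * ((1 + b) ^ m - 1)) =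
      ((((1 + a) ^ (1 * m) * (1 + b) ^ (2 * m)) - ((1 + a) ^ (0 * m) * (1 + b) ^ (2 * m))) -
       (2 : ℝ) • (((1 + a) ^ (1 * m) * (1 + b) ^ (1 * m)) -
        ((1 + a) ^ (0 * m) * (1 + b) ^ (1 * m)))) +
       (((1 + a) ^ (1 * m) * (1 + b) ^ (0 * m)) - ((1 + a) ^ (0 * m) * (1 + b) ^ (0 * m))) := by
    intro m
    have e1 : ∀ x : Matrix (Fin ρ) (Fin ρ) ℝ, x ^ (2 * m) = x ^ m * x ^ m := fun x => by rw [two_mul, pow_add]
    have e2 : ∀ x : Matrix (Fin ρ) (Fin ρ) ℝ, x ^ (1 * m) = x ^ m := fun x => by rw [one_mul]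
    have e3 : ∀ x : Matrix (Fin ρ) (Fin ρ) ℝ, x ^ (0 * m) = 1 := fun x => by rw [zero_mul, pow_zero]
    rw [e1, e2, e2, e3, e3]
    simp only [two_smul]
    noncomm_ring
  refine QB.congr ?_ h2
  exact ((((hQ 1 2).sub (hQ 0 2)).sub (((hQ 1 1).sub (hQ 0 1)).smul 2))).add
    ((hQ 1 0).sub (hQ 0 0))

/-- three elements: `a b c = 0` -/
theorem triple {a b c : Matrix (Fin ρ) (Fin ρ) ℝ} (ha : a ^ 3 = 0) (hb : b ^ 3 = 0) (hc : c ^ 3 = 0)
    (hQ : ∀ p q r : ℕ, QB fun m => (1 + a) ^ (p * m) * (1 + b) ^ (q * m) * (1 + c) ^ (r * m)) :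
    a * b * c = 0 := by
  have hab : ∀ p q : ℕ, QB fun m => (1 + a) ^ (p * m) * (1 + b) ^ (q * m) := fun p q =>
    (hQ p q 0).congr fun m => by rw [zero_mul, pow_zero, mul_one]
  have hbc : ∀ p q : ℕ, QB fun m => (1 + b) ^ (p * m) * (1 + c) ^ (q * m) := fun p q =>
    (hQ 0 p q).congr fun m => by rw [zero_mul, pow_zero, one_mul]
  have h1 := two_one ha hb hab
  have h3 := two_one hb hc hbc
  have h4 := one_two hb hc hbc
  have h5 := two_two hb hc hbc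
  refine QB.eq_zero (d := 3) le_rfl ?_
  have e0 : ∀ m : ℕ, ((m : ℝ) ^ 3) • (a * b * c) =
      ((1 + a) ^ m - 1) * (((1 + b) ^ m - 1) * ((1 + c) ^ m - 1)) := by
    intro m
    have e1 : ((1 + b) ^ m - 1) * ((1 + c) ^ m - 1) = ((m : ℝ) ^ 2) • (b * c) := by
      rw [pow_sub' hb, pow_sub' hc]
      simp only [add_mul, mul_add, smul_mul_assoc, mul_smul_comm, h3, h4, h5, smul_zero, add_zero,
        smul_smul]
      rw [← sq]
    rw [e1, pow_sub' ha]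
    have e2 : a ^ 2 * (b * c) = 0 := by rw [← mul_assoc, h1, zero_mul]
    simp only [add_mul, smul_mul_assoc, mul_smul_comm, e2, smul_zero, add_zero, smul_smul]
    rw [← pow_succ, mul_assoc]
  refine QB.congr ?_ e0
  have h2 : ∀ m : ℕ, ((1 + a) ^ m - 1) * (((1 + b) ^ m - 1) * ((1 + c) ^ m - 1)) =
      (((((1 + a) ^ (1 * m) * (1 + b) ^ (1 * m) * (1 + c) ^ (1 * m)) -
         ((1 + a) ^ (0 * m) * (1 + b) ^ (1 * m) * (1 + c) ^ (1 * m))) -
        (((1 + a) ^ (1 * m) * (1 + b) ^ (0 * m) * (1 + c) ^ (1 * m)) -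
         ((1 + a) ^ (0 * m) * (1 + b) ^ (0 * m) * (1 + c) ^ (1 * m)))) -
        (((1 + a) ^ (1 * m) * (1 + b) ^ (1 * m) * (1 + c) ^ (0 * m)) -
         ((1 + a) ^ (0 * m) * (1 + b) ^ (1 * m) * (1 + c) ^ (0 * m)))) +
        (((1 + a) ^ (1 * m) * (1 + b) ^ (0 * m) * (1 + c) ^ (0 * m)) -
         ((1 + a) ^ (0 * m) * (1 + b) ^ (0 * m) * (1 + c) ^ (0 * m))) := by
    intro m
    have e2 : ∀ x : Matrix (Fin ρ) (Fin ρ) ℝ, x ^ (1 * m) = x ^ m := fun x => by rw [one_mul]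
    have e3 : ∀ x : Matrix (Fin ρ) (Fin ρ) ℝ, x ^ (0 * m) = 1 := fun x => by rw [zero_mul, pow_zero]
    rw [e2, e2, e2, e3, e3, e3]
    noncomm_ring
  refine QB.congr ?_ h2
  exact ((((hQ 1 1 1).sub (hQ 0 1 1)).sub ((hQ 1 0 1).sub (hQ 0 0 1))).sub
    ((hQ 1 1 0).sub (hQ 0 1 0))).add ((hQ 1 0 0).sub (hQ 0 0 0))

end

end Run7.h913.ST
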