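import Pool.Agent.N110.RK.Stat
import Pool.Agent.N110.PA.NDefs

/-!
Definition: groups of birational self-maps which look like the group of translations of an elliptic
fibration.
-/

set_option autoImplicit false

open FF Pool.Agent.W602.GT Pool.Agent.Y172 Pool.Agent.R887 Pool.Agent.N110

namespace Run7.h913.ST

/-- Let `G` be a group of isomorphisms in codimension one of `X`, given by automorphisms of the
function field, and let the `c P` in `ℤ ^ ρ` be the classes of the prime divisors `P` of `X`. The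
group `G` is of Mordell-Weil type if there are a normal subgroup `G₀` of finite index in `G` and a
homomorphism `Φ` from `G₀` onto `ℤ ^ r`, where `r = 0` or `r ≤ ρ - 2`, with the following properties:
the elements of the kernel of `Φ` act trivially on the classes of the divisors, and the degree
`D = g^* H · H ^ (n - 1)` is comparable to the square of the norm of `Φ g`, up to a constant factor `C`
which does not depend on `g`, for all `g` in `G₀`. -/
def MordellWeil {K : Type} [Field K] [Algebra ℂ K] {N : ℕ} (y : Fin (N + 1) → K) (n : ℕ) {ρ : ℕ}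
    (c : Place ℂ K → Fin ρ → ℤ) (G : Subgroup (K ≃ₐ[ℂ] K)) : Prop :=
  ∃ (G₀ : Subgroup G) (r : ℕ) (Φ : G₀ →* Multiplicative (Fin r → ℤ)) (C : ℝ),
    G₀.Normal ∧ G₀.FiniteIndex ∧ Function.Surjective Φ ∧ (r = 0 ∨ r + 2 ≤ ρ) ∧
    (∀ g : G₀, Φ g = 1 → ∀ P Q : Place ℂ K, IsPrimeDivisor y Q →
      (∀ f : K, P.ord f = Q.ord (((g : G) : K ≃ₐ[ℂ] K) f)) → c P = c Q) ∧
    ∀ g : G₀, ∃ D : ℕ, mixedDegree ((g : G) : K ≃ₐ[ℂ] K) y n 1 = D ∧
      (∑ i, |((Multiplicative.toAdd (Φ g) i : ℤ) : ℝ)|) ^ 2 ≤ C * D ∧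
      D ≤ C * ((∑ i, |((Multiplicative.toAdd (Φ g) i : ℤ) : ℝ)|) ^ 2 + 1)

end Run7.h913.ST
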