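import Pool.Agent.Run7.h913.ST.Lg

/-!
Groups of matrices whose norms grow at most quadratically in the word length, part 5: simultaneous
approximation, and the positivity of the quadratic form.
-/

set_option autoImplicit false

open Matrix

namespace Run7.h913.ST

section

/-- multiples of a real vector are close to integral vectors -/
theorem approx {r : ℕ} (t : Fin r → ℝ) {ε : ℝ} (hε : 0 < ε) (K : ℕ) :
    ∃ m : ℕ, K ≤ m ∧ ∃ z : Fin r → ℤ, nv ((m : ℝ) • t - iv z) < ε := by
  obtain ⟨f, hf⟩ : ∃ f : ℕ → Fin r → ℝ, ∀ k i, f k i = Int.fract ((k : ℝ) * t i) :=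
    ⟨fun k i => Int.fract ((k : ℝ) * t i), fun _ _ => rfl⟩
  have hmem : ∀ k, f k ∈ Set.pi Set.univ fun _ : Fin r => Set.Icc (0 : ℝ) 1 := by
    intro k i _
    rw [hf]
    exact ⟨Int.fract_nonneg _, (Int.fract_lt_one _).le⟩
  obtain ⟨a, -, φ, hφ, hlim⟩ := (isCompact_univ_pi fun _ : Fin r =>
    isCompact_Icc (a := (0 : ℝ)) (b := 1)).tendsto_subseq hmem
  have hcau := hlim.cauchySeq
  rw [Metric.cauchySeq_iff] at hcau
  obtain ⟨N, hN⟩ := hcau (ε / (r + 1)) (by positivity)
  have hadd : ∀ k, φ N + k ≤ φ (N + k) := by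
    intro k
    induction k with
    | zero => exact le_rfl
    | succ k ih =>
      have h1 : φ (N + k) < φ (N + (k + 1)) := hφ (by omega)
      omega
  refine ⟨φ (N + K) - φ N, by have := hadd K; omega,
    fun i => ⌊(φ (N + K) : ℝ) * t i⌋ - ⌊(φ N : ℝ) * t i⌋, ?_⟩
  have h1 := hN (N + K) (by omega) N le_rfl
  have hle : φ N ≤ φ (N + K) := by have := hadd K; omega
  have h2 : ∀ i, |(((φ (N + K) - φ N : ℕ) : ℝ) • t - iv fun i => ⌊(φ (N + K) : ℝ) * t i⌋ -
      ⌊(φ N : ℝ) * t i⌋) i| ≤ ε / (r + 1) := by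
    intro i
    have e : (((φ (N + K) - φ N : ℕ) : ℝ) • t - iv fun i => ⌊(φ (N + K) : ℝ) * t i⌋ -
      ⌊(φ N : ℝ) * t i⌋) i = f (φ (N + K)) i - f (φ N) i := by
      rw [Pi.sub_apply, Pi.smul_apply, smul_eq_mul, hf, hf, iv, Nat.cast_sub hle]
      push_cast
      rw [← Int.self_sub_floor, ← Int.self_sub_floor]
      ring
    rw [e, ← Real.dist_eq]
    exact (dist_le_pi_dist (f (φ (N + K))) (f (φ N)) i).trans h1.le
  unfold nv
  refine (Finset.sum_le_sum fun i _ => h2 i).trans_lt ?_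
  rw [Finset.sum_const, Finset.card_univ, Fintype.card_fin, nsmul_eq_mul, mul_div_assoc',
    div_lt_iff₀ (by positivity)]
  nlinarith

variable {ρ : ℕ} {G : Type} [Group G] {M : G → Matrix (Fin ρ) (Fin ρ) ℤ} {x : Fin ρ → ℤ} {C : ℝ}

/-- real combinations of the logarithms -/
noncomputable def NN {r : ℕ} (W : Fin r → Matrix (Fin ρ) (Fin ρ) ℤ) (t : Fin r → ℝ) :
    Matrix (Fin ρ) (Fin ρ) ℝ := ∑ i, t i • im (W i)

theorem NN_add {r : ℕ} (W : Fin r → Matrix (Fin ρ) (Fin ρ) ℤ) (t s : Fin r → ℝ) :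
    NN W (t + s) = NN W t + NN W s := by
  unfold NN
  rw [← Finset.sum_add_distrib]
  exact Finset.sum_congr rfl fun i _ => by rw [Pi.add_apply, add_smul]

theorem NN_smul {r : ℕ} (W : Fin r → Matrix (Fin ρ) (Fin ρ) ℤ) (a : ℝ) (t : Fin r → ℝ) :
    NN W (a • t) = a • NN W t := by
  unfold NN
  rw [Finset.smul_sum]
  exact Finset.sum_congr rfl fun i _ => by rw [Pi.smul_apply, smul_eq_mul, mul_smul]

theorem NN_le {r : ℕ} (W : Fin r → Matrix (Fin ρ) (Fin ρ) ℤ) (t : Fin r → ℝ) :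
    nr (NN W t) ≤ (∑ i, nr (im (W i))) * nv t := by
  unfold NN
  refine (nr_sum _ _).trans ?_
  rw [Finset.sum_mul]
  refine Finset.sum_le_sum fun i _ => ?_
  rw [nr_smul, mul_comm]
  exact mul_le_mul_of_nonneg_left (ventry_le t i) (nr_nonneg _)

theorem nv_zero_of {r : ℕ} {t : Fin r → ℝ} (h : nv t ≤ 0) : t = 0 := by
  funext i
  exact abs_eq_zero.1 (le_antisymm ((ventry_le t i).trans h) (abs_nonneg _))

/-- The quadratic form is definite. Here `W` are logarithms, the integral combinations of which are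
logarithms of elements of the group and do not vanish. -/
theorem definite {r : ℕ} {W : Fin r → Matrix (Fin ρ) (Fin ρ) ℤ} {C1 : ℝ} (hC1 : 0 ≤ C1)
    {x : Fin ρ → ℝ}
    (h1 : ∀ z : Fin r → ℤ, nr (NN W (iv z)) ≤
      C1 * (1 + nv ((NN W (iv z) * NN W (iv z)).mulVec x)))
    (h2 : ∀ z : Fin r → ℤ, nr (NN W (iv z)) < 1 → z = 0) {t : Fin r → ℝ}
    (ht : (NN W t * NN W t).mulVec x = 0) : t = 0 := by
  obtain ⟨B, hB⟩ : ∃ B : ℝ, B = ∑ i, nr (im (W i)) := ⟨_, rfl⟩
  have hB0 : 0 ≤ B := by rw [hB]; exact Finset.sum_nonneg fun _ _ => nr_nonneg _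
  have hx := nv_nonneg x
  obtain ⟨A, hA⟩ : ∃ A : ℝ, A = nr (NN W t) := ⟨_, rfl⟩
  have hA0 : 0 ≤ A := by rw [hA]; exact nr_nonneg _
  -- the estimate
  have key : ∀ (m : ℕ) (z : Fin r → ℤ) (ε : ℝ), 0 ≤ ε → ε ≤ 1 → nv ((m : ℝ) • t - iv z) ≤ ε →
      m * A ≤ B + C1 * (1 + (2 * (m * A * (B * ε)) + B * B) * nv x) := by
    intro m z ε hε hε1 hz
    obtain ⟨δ, hδ⟩ : ∃ δ, δ = NN W (iv z - (m : ℝ) • t) := ⟨_, rfl⟩
    have e1 : NN W (iv z) = (m : ℝ) • NN W t + δ := by
      rw [hδ, ← NN_smul, ← NN_add, add_sub_cancel]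
    have hδ1 : nr δ ≤ B * ε := by
      rw [hδ, hB]
      refine (NN_le _ _).trans (mul_le_mul_of_nonneg_left ?_ (by rw [← hB]; exact hB0))
      rw [← nv_neg, neg_sub]
      exact hz
    have hδ0 := nr_nonneg δ
    have hm0 : (0 : ℝ) ≤ m := Nat.cast_nonneg _
    have e2 : (NN W (iv z) * NN W (iv z)).mulVec x =
        (m : ℝ) • ((NN W t * δ).mulVec x) + (m : ℝ) • ((δ * NN W t).mulVec x) +
          (δ * δ).mulVec x := by
      rw [e1]
      simp only [add_mul, mul_add, smul_mul_assoc, mul_smul_comm, Matrix.add_mulVec,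
        Matrix.smul_mulVec, ht, smul_zero, zero_add]
      abel
    have e3 : nv ((NN W (iv z) * NN W (iv z)).mulVec x) ≤
        (2 * (m * A * (B * ε)) + B * B) * nv x := by
      rw [e2]
      refine (nv_add _ _).trans ?_
      have f1 : nv ((m : ℝ) • ((NN W t * δ).mulVec x) + (m : ℝ) • ((δ * NN W t).mulVec x)) ≤
          2 * (m * A * (B * ε)) * nv x := by
        refine (nv_add _ _).trans ?_
        rw [nv_smul, nv_smul, abs_of_nonneg hm0]
        have g1 : nv ((NN W t * δ).mulVec x) ≤ A * (B * ε) * nv x := by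
          refine (nv_mulVec _ _).trans (mul_le_mul_of_nonneg_right ?_ hx)
          refine (nr_mul _ _).trans ?_
          rw [← hA]
          exact mul_le_mul_of_nonneg_left hδ1 hA0
        have g2 : nv ((δ * NN W t).mulVec x) ≤ A * (B * ε) * nv x := by
          refine (nv_mulVec _ _).trans (mul_le_mul_of_nonneg_right ?_ hx)
          refine (nr_mul _ _).trans ?_
          rw [← hA, mul_comm]
          exact mul_le_mul_of_nonneg_left hδ1 hA0
        have g3 := mul_le_mul_of_nonneg_left g1 hm0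
        have g4 := mul_le_mul_of_nonneg_left g2 hm0
        nlinarith
      have f2 : nv ((δ * δ).mulVec x) ≤ B * B * nv x := by
        refine (nv_mulVec _ _).trans (mul_le_mul_of_nonneg_right ?_ hx)
        refine (nr_mul _ _).trans ?_
        have g1 : nr δ ≤ B := hδ1.trans (by nlinarith)
        exact mul_le_mul g1 g1 hδ0 hB0
      rw [add_mul]
      exact add_le_add f1 f2
    have h3 := (h1 z).trans (mul_le_mul_of_nonneg_left (add_le_add_right e3 1) hC1)
    have h4 : m * A ≤ nr (NN W (iv z)) + nr δ := by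
      have h5 : (m : ℝ) • NN W t = NN W (iv z) - δ := by rw [e1]; abel
      have h6 : nr ((m : ℝ) • NN W t) = m * A := by rw [nr_smul, abs_of_nonneg hm0, hA]
      rw [← h6, h5]
      exact nr_sub _ _
    have h5 : nr δ ≤ B := hδ1.trans (by nlinarith)
    linarith
  -- the matrix vanishes
  have hA1 : A = 0 := by
    by_contra hcon
    have hApos : 0 < A := lt_of_le_of_ne hA0 (Ne.symm hcon)
    obtain ⟨ε, hε⟩ : ∃ ε : ℝ, ε = 1 / (4 * (C1 * B * nv x) + 1) := ⟨_, rfl⟩
    have hcb : 0 ≤ C1 * B * nv x := by positivity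
    have hε0 : 0 < ε := by rw [hε]; positivity
    have hε1 : ε ≤ 1 := by
      rw [hε, div_le_one (by positivity)]
      linarith
    have hε2 : 4 * (C1 * B * nv x) * ε ≤ 1 := by
      rw [hε, mul_one_div, div_le_one (by positivity)]
      linarith
    obtain ⟨K, hK⟩ := exists_nat_gt (2 * (B + C1 * (1 + B * B * nv x)) / A)
    rw [div_lt_iff₀ hApos] at hK
    obtain ⟨m, hm, z, hz⟩ := approx t hε0 K
    have h3 := key m z ε hε0.le hε1 hz.le
    have hmK : (K : ℝ) ≤ m := by exact_mod_cast hm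
    have h4 : (K : ℝ) * A ≤ m * A := mul_le_mul_of_nonneg_right hmK hA0
    have hm0 : 0 ≤ m * A := mul_nonneg (Nat.cast_nonneg _) hA0
    have h5 : 2 * (C1 * B * nv x * ε) * (m * A) ≤ 1 / 2 * (m * A) :=
      mul_le_mul_of_nonneg_right (by linarith) hm0
    have h6 : C1 * (1 + (2 * (m * A * (B * ε)) + B * B) * nv x) =
        C1 * (1 + B * B * nv x) + 2 * (C1 * B * nv x * ε) * (m * A) := by ring
    rw [h6] at h3
    linarith
  -- the vector vanishes
  have hNt : NN W t = 0 := eq_zero_of_nr (by rw [← hA, hA1])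
  refine nv_zero_of ?_
  by_contra hcon
  push Not at hcon
  obtain ⟨K, hK⟩ := exists_nat_gt (1 / nv t)
  rw [div_lt_iff₀ hcon] at hK
  obtain ⟨m, hm, z, hz⟩ := approx t (ε := 1 / (B + 1)) (by positivity) K
  have h3 : NN W (iv z) = NN W (iv z - (m : ℝ) • t) := by
    have : iv z = (m : ℝ) • t + (iv z - (m : ℝ) • t) := by rw [add_sub_cancel]
    conv_lhs => rw [this, NN_add, NN_smul, hNt, smul_zero, zero_add]
  have h4 : nr (NN W (iv z)) < 1 := by
    rw [h3]
    refine (NN_le _ _).trans_lt ?_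
    rw [← hB, ← nv_neg, neg_sub]
    have h5 : B * nv ((m : ℝ) • t - iv z) ≤ B * (1 / (B + 1)) := mul_le_mul_of_nonneg_left hz.le hB0
    refine h5.trans_lt ?_
    rw [mul_one_div, div_lt_one (by positivity)]
    linarith
  have h5 := h2 z h4
  have h6 : iv z = 0 := by
    rw [h5]
    funext i
    exact Int.cast_zero
  rw [h6, sub_zero, nv_smul, abs_of_nonneg (Nat.cast_nonneg _)] at hz
  have h7 : (1 : ℝ) / (B + 1) ≤ 1 := by
    rw [div_le_one (by positivity)]
    linarith
  have hmK : (K : ℝ) ≤ m := by exact_mod_cast hm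
  have h8 : (K : ℝ) * nv t ≤ m * nv t := mul_le_mul_of_nonneg_right hmK hcon.le
  linarith

/-- compactness -/
theorem lower {r : ℕ} {W : Fin r → Matrix (Fin ρ) (Fin ρ) ℤ} {x : Fin ρ → ℝ}
    (h : ∀ t : Fin r → ℝ, (NN W t * NN W t).mulVec x = 0 → t = 0) :
    ∃ δ : ℝ, 0 < δ ∧ ∀ t : Fin r → ℝ, δ * nv t ^ 2 ≤ nv ((NN W t * NN W t).mulVec x) := by
  obtain ⟨S, hS⟩ : ∃ S : Set (Fin r → ℝ), S = {t | nv t = 1} := ⟨_, rfl⟩
  have hcont : Continuous fun t : Fin r → ℝ => nv t := by
    unfold nv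
    exact continuous_finsetSum _ fun i _ => (continuous_apply i).abs
  have hScl : IsClosed S := by
    rw [hS]
    exact isClosed_eq hcont continuous_const
  have hScp : IsCompact S := by
    refine IsCompact.of_isClosed_subset (isCompact_univ_pi fun _ : Fin r =>
      isCompact_Icc (a := (-1 : ℝ)) (b := 1)) hScl ?_
    intro t ht i _
    rw [hS] at ht
    have h1 := ventry_le t i
    rw [ht] at h1
    exact abs_le.1 h1
  have hNc : Continuous fun t : Fin r → ℝ => NN W t := by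
    unfold NN
    exact continuous_finsetSum _ fun i _ => (continuous_apply i).smul continuous_const
  have hqc : Continuous fun t : Fin r → ℝ => nv ((NN W t * NN W t).mulVec x) := by
    unfold nv
    refine continuous_finsetSum _ fun i _ => Continuous.abs ?_
    exact (continuous_apply i).comp ((hNc.matrix_mul hNc).matrix_mulVec continuous_const)
  have hhom : ∀ (a : ℝ) (t : Fin r → ℝ), nv ((NN W (a • t) * NN W (a • t)).mulVec x) =
      a ^ 2 * nv ((NN W t * NN W t).mulVec x) := by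
    intro a t
    rw [NN_smul, smul_mul_smul_comm, Matrix.smul_mulVec, nv_smul,
      abs_of_nonneg (mul_self_nonneg a), sq]
  have hscale : ∀ t : Fin r → ℝ, nv t ≠ 0 → (nv t)⁻¹ • t ∈ S := by
    intro t ht
    have h1 : nv ((nv t)⁻¹ • t) = 1 := by
      rw [nv_smul, abs_of_nonneg (inv_nonneg.2 (nv_nonneg t)), inv_mul_cancel₀ ht]
    rw [hS]
    exact h1
  by_cases hne : S.Nonempty
  · obtain ⟨t0, ht0, hmin⟩ := hScp.exists_isMinOn hne hqc.continuousOn
    have h1 : nv t0 = 1 := by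
      rw [hS] at ht0
      exact ht0
    have h2 : 0 < nv ((NN W t0 * NN W t0).mulVec x) := by
      refine lt_of_le_of_ne (nv_nonneg _) fun h3 => ?_
      have h4 := h t0 (nv_zero_of h3.symm.le)
      rw [h4] at h1
      have h5 : nv (0 : Fin r → ℝ) = 0 := by
        unfold nv
        simp
      rw [h5] at h1
      exact zero_ne_one h1
    refine ⟨_, h2, fun t => ?_⟩
    by_cases ht : nv t = 0
    · rw [ht]
      have := nv_nonneg ((NN W t * NN W t).mulVec x)
      simpa using this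
    · have h3 := hmin (hscale t ht)
      beta_reduce at h3
      rw [Set.mem_ofPred_eq, hhom] at h3
      have h4 : 0 < nv t := lt_of_le_of_ne (nv_nonneg t) (Ne.symm ht)
      have h5 := mul_le_mul_of_nonneg_right h3 (sq_nonneg (nv t))
      have h6 : (nv t)⁻¹ ^ 2 * nv ((NN W t * NN W t).mulVec x) * nv t ^ 2 =
          nv ((NN W t * NN W t).mulVec x) := by
        field_simp
      rw [h6] at h5
      exact h5
  · refine ⟨1, one_pos, fun t => ?_⟩
    have ht : nv t = 0 := by
      by_contra hcon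
      exact hne ⟨_, hscale t hcon⟩
    rw [ht]
    have := nv_nonneg ((NN W t * NN W t).mulVec x)
    simpa using this

end

end Run7.h913.ST
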