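import Pool.Agent.Run7.h913.ST.Alg

/-!
Groups of matrices whose norms grow at most quadratically in the word length, part 3: a subgroup of
finite index is unipotent and abelian.
-/

set_option autoImplicit false

open Matrix

namespace Run7.h913.ST

section

variable {ρ : ℕ}

/-- an integral matrix as a real matrix -/
noncomputable abbrev im : Matrix (Fin ρ) (Fin ρ) ℤ →+* Matrix (Fin ρ) (Fin ρ) ℝ :=
  (Int.castRingHom ℝ).mapMatrix

/-- an integral vector as a real vector -/
def iv (x : Fin ρ → ℤ) : Fin ρ → ℝ := fun i => (x i : ℝ)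

theorem im_apply (A : Matrix (Fin ρ) (Fin ρ) ℤ) (i j : Fin ρ) : im A i j = (A i j : ℝ) := rfl

theorem im_inj {A B : Matrix (Fin ρ) (Fin ρ) ℤ} (h : im A = im B) : A = B := by
  ext i j
  have h1 := congrFun (congrFun h i) j
  rw [im_apply, im_apply] at h1
  exact_mod_cast h1

theorem iv_inj {x z : Fin ρ → ℤ} (h : iv x = iv z) : x = z := by
  funext i
  have h1 := congrFun h i
  unfold iv at h1
  exact_mod_cast h1

theorem im_mulVec (A : Matrix (Fin ρ) (Fin ρ) ℤ) (x : Fin ρ → ℤ) :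
    (im A).mulVec (iv x) = iv (A.mulVec x) := by
  funext i
  unfold Matrix.mulVec dotProduct iv
  push_cast
  rfl

theorem eq_zero_of_small {A : Matrix (Fin ρ) (Fin ρ) ℤ} (h : nr (im A) < 1) : A = 0 := by
  ext i j
  have h1 := (entry_le (im A) i j).trans_lt h
  rw [im_apply] at h1
  have h2 : |A i j| < 1 := by exact_mod_cast h1
  exact Int.abs_lt_one_iff.1 h2

/-- a group of integral matrices with quadratic growth and a vector which is not near a line in the
limit -/
structure Sys {G : Type} [Group G] (M : G → Matrix (Fin ρ) (Fin ρ) ℤ) (x : Fin ρ → ℤ) (C : ℝ) :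
    Prop where
  one : M 1 = 1
  mul : ∀ u v, M (u * v) = M u * M v
  nonneg : 0 ≤ C
  sal : ∀ v, nr (im (M v)) ≤ C * nv ((im (M v + M v⁻¹)).mulVec (iv x))
  quad : ∀ T : Finset G, ∃ C : ℝ, ∀ w : List G, w ≠ [] → (∀ g ∈ w, g ∈ T ∨ g⁻¹ ∈ T) →
    nr (im (M w.prod)) ≤ C * (w.length : ℝ) ^ 2

variable {G : Type} [Group G] {M : G → Matrix (Fin ρ) (Fin ρ) ℤ} {x : Fin ρ → ℤ} {C : ℝ}

theorem Sys.pow (h : Sys M x C) (g : G) (m : ℕ) : M (g ^ m) = M g ^ m := by
  induction m with
  | zero => rw [pow_zero, pow_zero, h.one]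
  | succ m ih => rw [pow_succ, h.mul, ih, pow_succ]

/-- words in three elements -/
theorem Sys.word (h : Sys M x C) (g k l : G) (p q r : ℕ) :
    QB fun m => im (M g) ^ (p * m) * im (M k) ^ (q * m) * im (M l) ^ (r * m) := by
  classical
  obtain ⟨C', hC'⟩ := h.quad {g, k, l}
  refine ⟨|C'| * ((p : ℝ) + q + r) ^ 2 + nr (1 : Matrix (Fin ρ) (Fin ρ) ℝ), fun m => ?_⟩
  obtain ⟨w, hw⟩ : ∃ w : List G, w = List.replicate (p * m) g ++ List.replicate (q * m) k ++
      List.replicate (r * m) l := ⟨_, rfl⟩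
  have hprod : w.prod = g ^ (p * m) * k ^ (q * m) * l ^ (r * m) := by
    rw [hw]
    simp [mul_assoc]
  have hlen : w.length = (p + q + r) * m := by
    rw [hw]
    simp only [List.length_append, List.length_replicate]
    ring
  have e : im (M g) ^ (p * m) * im (M k) ^ (q * m) * im (M l) ^ (r * m) = im (M w.prod) := by
    rw [hprod, h.mul, h.mul, h.pow, h.pow, h.pow, map_mul, map_mul, map_pow, map_pow, map_pow]
  beta_reduce
  rw [e]
  by_cases hw0 : w = []
  · rw [hw0, List.prod_nil, h.one, map_one]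
    have h1 := nr_nonneg (1 : Matrix (Fin ρ) (Fin ρ) ℝ)
    have h2 : 0 ≤ |C'| * ((p : ℝ) + q + r) ^ 2 := by positivity
    nlinarith [sq_nonneg (m : ℝ)]
  · have h1 := hC' w hw0 (by
      intro a ha
      left
      rw [hw, List.mem_append, List.mem_append] at ha
      rcases ha with (ha | ha) | ha
      · rw [List.eq_of_mem_replicate ha]
        simp
      · rw [List.eq_of_mem_replicate ha]
        simp
      · rw [List.eq_of_mem_replicate ha]
        simp)
    rw [hlen] at h1
    have h2 : C' * (((p + q + r) * m : ℕ) : ℝ) ^ 2 ≤ |C'| * (((p + q + r) * m : ℕ) : ℝ) ^ 2 :=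
      mul_le_mul_of_nonneg_right (le_abs_self _) (by positivity)
    refine (h1.trans h2).trans ?_
    push_cast
    have h3 := nr_nonneg (1 : Matrix (Fin ρ) (Fin ρ) ℝ)
    have h4 : 0 ≤ |C'| * ((p : ℝ) + q + r) ^ 2 := by positivity
    have h5 : |C'| * (((p : ℝ) + q + r) * m) ^ 2 = |C'| * ((p : ℝ) + q + r) ^ 2 * (m : ℝ) ^ 2 := by
      ring
    rw [h5]
    nlinarith [sq_nonneg (m : ℝ)]

theorem Sys.growth (h : Sys M x C) (g : G) : QB fun m => im (M g) ^ m :=
  (h.word g 1 1 1 0 0).congr fun m => by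
    rw [zero_mul, pow_zero, mul_one, mul_one, one_mul]

/-- the reduction modulo `3` -/
noncomputable def Sys.red (h : Sys M x C) : G →* Matrix (Fin ρ) (Fin ρ) (ZMod 3) where
  toFun g := (Int.castRingHom (ZMod 3)).mapMatrix (M g)
  map_one' := by rw [h.one, map_one]
  map_mul' u v := by rw [h.mul, map_mul]

/-- the congruence subgroup modulo `3` -/
noncomputable def Sys.sub (h : Sys M x C) : Subgroup G := h.red.toHomUnits.ker

theorem Sys.sub_normal (h : Sys M x C) : h.sub.Normal := by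
  unfold Sys.sub
  infer_instance

theorem Sys.sub_fin (h : Sys M x C) : h.sub.FiniteIndex := by
  unfold Sys.sub
  exact Subgroup.finiteIndex_ker _

theorem Sys.mem_sub (h : Sys M x C) {g : G} (hg : g ∈ h.sub) :
    ∃ B : Matrix (Fin ρ) (Fin ρ) ℤ, M g = 1 + (3 : ℤ) • B := by
  unfold Sys.sub at hg
  rw [MonoidHom.mem_ker] at hg
  have h1 : (Int.castRingHom (ZMod 3)).mapMatrix (M g) = 1 := by
    have h2 := congrArg Units.val hg
    exact h2
  have h2 : ∀ i j, (3 : ℤ) ∣ (M g - 1) i j := by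
    intro i j
    have h3 : (Int.castRingHom (ZMod 3)).mapMatrix (M g - 1) = 0 := by
      rw [map_sub, h1, map_one, sub_self]
    have h4 := congrFun (congrFun h3 i) j
    have h5 : (((M g - 1) i j : ℤ) : ZMod 3) = 0 := h4
    exact (ZMod.intCast_zmod_eq_zero_iff_dvd _ 3).1 h5
  choose B hB using h2
  refine ⟨B, ?_⟩
  ext i j
  have h3 := hB i j
  rw [Matrix.sub_apply] at h3
  rw [Matrix.add_apply, Matrix.smul_apply, smul_eq_mul]
  linarith

/-- the elements of the congruence subgroup are unipotent -/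
theorem Sys.nilp (h : Sys M x C) {g : G} (hg : g ∈ h.sub) : IsNilpotent (im (M g) - 1) := by
  obtain ⟨B, hB⟩ := h.mem_sub hg
  obtain ⟨C', hC'⟩ := h.growth g
  have hC0 : 0 ≤ C' := by
    have h1 := (nr_nonneg _).trans (hC' 0)
    simpa using h1
  have e : im (M g) - 1 = (3 : ℝ) • im B := by
    rw [hB]
    ext i j
    rw [Matrix.sub_apply, im_apply, Matrix.smul_apply, im_apply, Matrix.add_apply,
      Matrix.smul_apply]
    push_cast
    rw [Matrix.one_apply, Matrix.one_apply]
    split_ifs <;> simp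
  -- the norms of the powers of `B`
  have key : ∀ j : ℕ, 3 ^ j * nr (im (B ^ j)) ≤ 2 ^ j * (C' * ((j : ℝ) ^ 2 + 1)) := by
    intro j
    have h1 : (3 : ℝ) ^ j * nr (im (B ^ j)) = nr ((im (M g) - 1) ^ j) := by
      rw [e, smul_pow, nr_smul, abs_of_nonneg (by positivity), map_pow]
    rw [h1, sub_eq_add_neg, (Commute.neg_right (Commute.one_right _)).add_pow]
    refine (nr_sum _ _).trans ?_
    have h2 : ∀ k ∈ Finset.range (j + 1),
        nr (im (M g) ^ k * (-1) ^ (j - k) * (j.choose k : Matrix (Fin ρ) (Fin ρ) ℝ)) ≤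
          (j.choose k : ℝ) * (C' * ((j : ℝ) ^ 2 + 1)) := by
      intro k hk
      have h3 : nr (im (M g) ^ k * (-1) ^ (j - k) * (j.choose k : Matrix (Fin ρ) (Fin ρ) ℝ)) =
          (j.choose k : ℝ) * nr (im (M g) ^ k) := by
        rw [← nsmul_eq_mul', ← Nat.cast_smul_eq_nsmul ℝ, nr_smul, abs_of_nonneg (Nat.cast_nonneg _)]
        congr 1
        rcases Nat.even_or_odd (j - k) with h4 | h4
        · rw [h4.neg_one_pow, mul_one]
        · rw [h4.neg_one_pow, mul_neg, mul_one, nr_neg]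
      rw [h3]
      refine mul_le_mul_of_nonneg_left ((hC' k).trans ?_) (Nat.cast_nonneg _)
      refine mul_le_mul_of_nonneg_left ?_ hC0
      have h4 : (k : ℝ) ≤ j := by
        have := Finset.mem_range.1 hk
        exact_mod_cast (by omega : k ≤ j)
      have h5 : (0 : ℝ) ≤ k := Nat.cast_nonneg _
      nlinarith
    refine (Finset.sum_le_sum h2).trans ?_
    rw [← Finset.sum_mul]
    refine mul_le_mul_of_nonneg_right ?_ (by positivity)
    have h6 : ∑ k ∈ Finset.range (j + 1), (j.choose k : ℝ) = 2 ^ j := by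
      have := Nat.sum_range_choose j
      exact_mod_cast this
    rw [h6]
  have hlim : Filter.Tendsto (fun j : ℕ => C' * ((j : ℝ) ^ 2 * (2 / 3 : ℝ) ^ j + (2 / 3 : ℝ) ^ j))
      Filter.atTop (nhds (C' * (0 + 0))) := by
    refine Filter.Tendsto.const_mul _ (Filter.Tendsto.add ?_ ?_)
    · exact tendsto_pow_const_mul_const_pow_of_abs_lt_one 2 (by
        rw [abs_of_pos (by norm_num)]
        norm_num)
    · exact tendsto_pow_atTop_nhds_zero_of_lt_one (by norm_num) (by norm_num)
  rw [add_zero, mul_zero] at hlim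
  obtain ⟨j, hj⟩ := (hlim.eventually_lt_const (zero_lt_one)).exists
  have h3 : nr (im (B ^ j)) < 1 := by
    have h4 := key j
    have h5 : nr (im (B ^ j)) ≤ C' * ((j : ℝ) ^ 2 * (2 / 3 : ℝ) ^ j + (2 / 3 : ℝ) ^ j) := by
      have h6 : (2 : ℝ) ^ j = (2 / 3 : ℝ) ^ j * 3 ^ j := by
        rw [← mul_pow]
        norm_num
      rw [h6] at h4
      have h7 : (0 : ℝ) < 3 ^ j := by positivity
      have h8 : 3 ^ j * nr (im (B ^ j)) ≤
          3 ^ j * (C' * ((j : ℝ) ^ 2 * (2 / 3 : ℝ) ^ j + (2 / 3 : ℝ) ^ j)) := by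
        refine h4.trans (le_of_eq ?_)
        ring
      exact le_of_mul_le_mul_left h8 h7
    linarith
  refine ⟨j, ?_⟩
  rw [e, smul_pow, ← map_pow, eq_zero_of_small h3, map_zero, smul_zero]

/-- the third power vanishes -/
theorem Sys.n3 (h : Sys M x C) {g : G} (hg : g ∈ h.sub) : (im (M g) - 1) ^ 3 = 0 := by
  refine cube_zero (h.nilp hg) ((h.growth g).congr fun m => ?_)
  rw [add_sub_cancel]

/-- products of three vanish -/
theorem Sys.triple (h : Sys M x C) {g k l : G} (hg : g ∈ h.sub) (hk : k ∈ h.sub)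
    (hl : l ∈ h.sub) : (M g - 1) * (M k - 1) * (M l - 1) = 0 := by
  refine im_inj ?_
  rw [map_mul, map_mul, map_sub, map_sub, map_sub, map_one, map_zero]
  refine Run7.h913.ST.triple (h.n3 hg) (h.n3 hk) (h.n3 hl) fun p q r => ?_
  refine (h.word g k l p q r).congr fun m => ?_
  rw [add_sub_cancel, add_sub_cancel, add_sub_cancel]

theorem Sys.inv (h : Sys M x C) (g : G) : M g * M g⁻¹ = 1 := by
  rw [← h.mul, mul_inv_cancel, h.one]

/-- the inverse -/
theorem Sys.inv_eq (h : Sys M x C) {g : G} (hg : g ∈ h.sub) :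
    M g⁻¹ = 1 - (M g - 1) + (M g - 1) * (M g - 1) := by
  have h1 := h.triple hg hg hg
  have h2 : M g * (1 - (M g - 1) + (M g - 1) * (M g - 1)) = 1 := by
    have : M g * (1 - (M g - 1) + (M g - 1) * (M g - 1)) =
        1 + (M g - 1) * (M g - 1) * (M g - 1) := by noncomm_ring
    rw [this, h1, add_zero]
  have h3 : M g⁻¹ * M g = 1 := by rw [← h.mul, inv_mul_cancel, h.one]
  calc M g⁻¹ = M g⁻¹ * (M g * (1 - (M g - 1) + (M g - 1) * (M g - 1))) := by rw [h2, mul_one]
    _ = M g⁻¹ * M g * (1 - (M g - 1) + (M g - 1) * (M g - 1)) := by rw [mul_assoc]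
    _ = _ := by rw [h3, one_mul]

/-- an element for which the square kills `x` acts trivially -/
theorem Sys.van (h : Sys M x C) {g : G} (hg : g ∈ h.sub)
    (h0 : ((M g - 1) * (M g - 1)).mulVec x = 0) : M g = 1 := by
  obtain ⟨n, hn⟩ : ∃ n, n = im (M g) - 1 := ⟨_, rfl⟩
  have hn3 : n ^ 3 = 0 := by rw [hn]; exact h.n3 hg
  have hMg : im (M g) = 1 + n := by rw [hn]; abel
  -- bounded
  have hb : ∀ m : ℕ, nr ((1 + n) ^ m) ≤ C * nv ((2 : ℝ) • iv x) := by
    intro m
    have hgm := h.sub.pow_mem hg m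
    have h1 := h.sal (g ^ m)
    have h2 : M (g ^ m) + M (g ^ m)⁻¹ = 1 + 1 + (M (g ^ m) - 1) * (M (g ^ m) - 1) := by
      rw [h.inv_eq hgm]
      noncomm_ring
    have h3 : im (M (g ^ m)) = (1 + n) ^ m := by rw [h.pow, map_pow, hMg]
    have h4 : (im (M (g ^ m) + M (g ^ m)⁻¹)).mulVec (iv x) = (2 : ℝ) • iv x := by
      rw [h2, map_add, map_add, map_mul, map_sub, map_one, h3, sq_eq hn3, Matrix.add_mulVec,
        Matrix.add_mulVec, Matrix.one_mulVec, Matrix.smul_mulVec]
      have h5 : (n ^ 2).mulVec (iv x) = 0 := by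
        have h6 : n ^ 2 = im ((M g - 1) * (M g - 1)) := by
          rw [map_mul, map_sub, map_one, ← hn, sq]
        rw [h6, im_mulVec, h0]
        funext i
        exact Int.cast_zero
      rw [h5, smul_zero, add_zero, two_smul]
    rw [h4, h3] at h1
    exact h1
  -- the coefficients vanish
  obtain ⟨K, hK⟩ : ∃ K : ℝ, K = C * nv ((2 : ℝ) • iv x) + nr (1 : Matrix (Fin ρ) (Fin ρ) ℝ) :=
    ⟨_, rfl⟩
  have hb' : ∀ m : ℕ, nr ((1 + n) ^ m - 1) ≤ K := fun m => by
    rw [hK]
    exact (nr_sub _ _).trans (by linarith [hb m])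
  have hK0 : 0 ≤ K := (nr_nonneg _).trans (hb' 0)
  have hz : ∀ (Z : Matrix (Fin ρ) (Fin ρ) ℝ) (d : ℕ) (K : ℝ), 1 ≤ d →
      (∀ m : ℕ, nr (((m : ℝ) ^ d) • Z) ≤ K) → Z = 0 := by
    intro Z d K hd hZ
    refine eq_zero_of_nr ?_
    by_contra hcon
    push Not at hcon
    obtain ⟨m, hm⟩ := exists_nat_gt (|K| / nr Z + 1)
    have hm1 : (1 : ℝ) ≤ m := by
      have : 0 ≤ |K| / nr Z := by positivity
      linarith
    have h1 := hZ m
    rw [nr_smul, abs_of_nonneg (by positivity)] at h1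
    have h2 : (m : ℝ) ^ 1 ≤ (m : ℝ) ^ d := pow_le_pow_right₀ hm1 hd
    rw [pow_one] at h2
    have h3 := mul_le_mul_of_nonneg_right h2 hcon.le
    have h4 : |K| / nr Z < m := by linarith
    rw [div_lt_iff₀ hcon] at h4
    linarith [le_abs_self K]
  have hn2 : n ^ 2 = 0 := by
    refine hz _ 2 (K * K) (by norm_num) fun m => ?_
    rw [← sq_eq hn3]
    exact (nr_mul _ _).trans (mul_le_mul (hb' m) (hb' m) (nr_nonneg _) hK0)
  have hn1 : n = 0 := by
    refine hz _ 1 K le_rfl fun m => ?_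
    have h1 := hb' m
    rw [pow_sub' hn3, hn2, smul_zero, add_zero] at h1
    rwa [pow_one]
  refine im_inj ?_
  rw [hMg, hn1, add_zero, map_one]

/-- the image is abelian -/
theorem Sys.comm (h : Sys M x C) {g k : G} (hg : g ∈ h.sub) (hk : k ∈ h.sub) :
    (M g - 1) * (M k - 1) = (M k - 1) * (M g - 1) := by
  obtain ⟨c, hc⟩ : ∃ c : G, c = g * k * (k * g)⁻¹ := ⟨_, rfl⟩
  have hcs : c ∈ h.sub := by
    rw [hc]
    exact h.sub.mul_mem (h.sub.mul_mem hg hk) (h.sub.inv_mem (h.sub.mul_mem hk hg))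
  have h1 : M c * (M k * M g) = M g * M k := by
    rw [← h.mul, ← h.mul, ← h.mul, hc, inv_mul_cancel_right]
  obtain ⟨a, ha⟩ : ∃ a, a = M g - 1 := ⟨_, rfl⟩
  obtain ⟨b, hb⟩ : ∃ b, b = M k - 1 := ⟨_, rfl⟩
  obtain ⟨n, hn⟩ : ∃ n, n = M c - 1 := ⟨_, rfl⟩
  have ea : M g = 1 + a := by rw [ha]; abel
  have eb : M k = 1 + b := by rw [hb]; abel
  have en : M c = 1 + n := by rw [hn]; abel
  rw [ea, eb, en] at h1
  have t1 : n * b * a = 0 := by rw [hn, hb, ha]; exact h.triple hcs hk hg
  have t2 : a * b * a = 0 := by rw [hb, ha]; exact h.triple hg hk hg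
  have t3 : b * a * a = 0 := by rw [hb, ha]; exact h.triple hk hg hg
  have t4 : n * a * a = 0 := by rw [hn, ha]; exact h.triple hcs hg hg
  have t5 : a * b * b = 0 := by rw [hb, ha]; exact h.triple hg hk hk
  have t6 : b * a * b = 0 := by rw [hb, ha]; exact h.triple hk hg hk
  have t7 : n * b * b = 0 := by rw [hn, hb]; exact h.triple hcs hk hk
  have t8 : n * a * b = 0 := by rw [hn, hb, ha]; exact h.triple hcs hg hk
  have e1 : n = a * b - b * a - n * (a + b) := by
    have h2 : (1 + n) * ((1 + b) * (1 + a)) = 1 + n + b + a + b * a + n * b + n * a + n * b * a := by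
      noncomm_ring
    have h3 : (1 + a) * (1 + b) = 1 + a + b + a * b := by noncomm_ring
    rw [h2, h3, t1, add_zero] at h1
    have h4 : n = (1 + n + b + a + b * a + n * b + n * a) - (1 + b + a + b * a + n * b + n * a) := by
      abel
    rw [h1] at h4
    calc n = 1 + a + b + a * b - (1 + b + a + b * a + n * b + n * a) := h4
      _ = a * b - b * a - n * (a + b) := by noncomm_ring
  have e2 : n * a = 0 := by
    have : n * a = (a * b - b * a - n * (a + b)) * a := by rw [← e1]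
    rw [this]
    have h2 : (a * b - b * a - n * (a + b)) * a = a * b * a - b * a * a - n * a * a - n * b * a := by
      noncomm_ring
    rw [h2, t1, t2, t3, t4]
    simp
  have e3 : n * b = 0 := by
    have : n * b = (a * b - b * a - n * (a + b)) * b := by rw [← e1]
    rw [this]
    have h2 : (a * b - b * a - n * (a + b)) * b = a * b * b - b * a * b - n * a * b - n * b * b := by
      noncomm_ring
    rw [h2, t5, t6, t7, t8]
    simp
  have e4 : n = a * b - b * a := by
    rw [mul_add, e2, e3, add_zero, sub_zero] at e1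
    exact e1
  have e5 : n * n = 0 := by
    have : n * n = n * (a * b - b * a) := by rw [← e4]
    rw [this, mul_sub, ← mul_assoc, ← mul_assoc, e2, e3, zero_mul, zero_mul, sub_zero]
  have e6 := h.van hcs (by rw [← hn, e5, Matrix.zero_mulVec])
  have e7 : n = 0 := by rw [hn, e6, sub_self]
  rw [← ha, ← hb]
  rw [e7] at e4
  exact (sub_eq_zero.1 e4.symm)

end

end Run7.h913.ST
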