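import Pool.Agent.Run7.h913.ST.Grp

/-!
Groups of matrices whose norms grow at most quadratically in the word length, part 4: the logarithm.
-/

set_option autoImplicit false

open Matrix

namespace Run7.h913.ST

section

variable {ρ : ℕ} {G : Type} [Group G] {M : G → Matrix (Fin ρ) (Fin ρ) ℤ} {x : Fin ρ → ℤ} {C : ℝ}

/-- twice the logarithm -/
def lg (M : G → Matrix (Fin ρ) (Fin ρ) ℤ) (g : G) : Matrix (Fin ρ) (Fin ρ) ℤ :=
  (M g - 1) + (M g - 1) - (M g - 1) * (M g - 1)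

theorem Sys.lg_mul (h : Sys M x C) {g k : G} (hg : g ∈ h.sub) (hk : k ∈ h.sub) :
    lg M (g * k) = lg M g + lg M k := by
  obtain ⟨a, ha⟩ : ∃ a, a = M g - 1 := ⟨_, rfl⟩
  obtain ⟨b, hb⟩ : ∃ b, b = M k - 1 := ⟨_, rfl⟩
  have ea : M g = 1 + a := by rw [ha]; abel
  have eb : M k = 1 + b := by rw [hb]; abel
  have e1 : M (g * k) - 1 = a + b + a * b := by
    rw [h.mul, ea, eb]
    noncomm_ring
  have t1 : a * (a * b) = 0 := by rw [← mul_assoc, hb, ha]; exact h.triple hg hg hk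
  have t2 : b * (a * b) = 0 := by rw [← mul_assoc, hb, ha]; exact h.triple hk hg hk
  have t3 : a * (b * a) = 0 := by rw [← mul_assoc, hb, ha]; exact h.triple hg hk hg
  have t4 : a * (b * b) = 0 := by rw [← mul_assoc, hb, ha]; exact h.triple hg hk hk
  have hc : b * a = a * b := by rw [hb, ha]; exact (h.comm hg hk).symm
  unfold lg
  rw [e1, ← ha, ← hb]
  have e2 : (a + b + a * b) * (a + b + a * b) = a * a + b * b + (a * b + b * a) +
      (a * (a * b) + b * (a * b) + a * (b * a) + a * (b * b) + a * (b * (a * b))) := by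
    noncomm_ring
  rw [e2, t1, t2, t3, t4, mul_zero, hc]
  abel

theorem Sys.lg_one (h : Sys M x C) : lg M 1 = 0 := by
  unfold lg
  rw [h.one]
  simp

/-- the logarithm as a homomorphism -/
noncomputable def Sys.lgH (h : Sys M x C) :
    h.sub →* Multiplicative (Matrix (Fin ρ) (Fin ρ) ℤ) where
  toFun g := Multiplicative.ofAdd (lg M (g : G))
  map_one' := by
    rw [Subgroup.coe_one, h.lg_one]
    rfl
  map_mul' u v := by
    rw [Subgroup.coe_mul, h.lg_mul u.2 v.2]
    rfl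

theorem Sys.lg3 (h : Sys M x C) {g k l : G} (hg : g ∈ h.sub) (hk : k ∈ h.sub) (hl : l ∈ h.sub) :
    lg M g * lg M k * lg M l = 0 := by
  obtain ⟨a, ha⟩ : ∃ a, a = M g - 1 := ⟨_, rfl⟩
  obtain ⟨b, hb⟩ : ∃ b, b = M k - 1 := ⟨_, rfl⟩
  obtain ⟨c, hc⟩ : ∃ c, c = M l - 1 := ⟨_, rfl⟩
  unfold lg
  rw [← ha, ← hb, ← hc]
  have t : a * b * c = 0 := by rw [ha, hb, hc]; exact h.triple hg hk hl
  have t1 : b * b * c = 0 := by rw [hb, hc]; exact h.triple hk hk hl
  have t2 : a * b * b = 0 := by rw [ha, hb]; exact h.triple hg hk hk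
  have e : (a + a - a * a) * (b + b - b * b) * (c + c - c * c) =
      (2 : ℤ) • ((2 : ℤ) • ((2 : ℤ) • (a * b * c))) - (2 : ℤ) • ((2 : ℤ) • (a * b * c * c)) -
      (2 : ℤ) • ((2 : ℤ) • (a * (b * b * c))) + (2 : ℤ) • (a * (b * b * c) * c) -
      (2 : ℤ) • ((2 : ℤ) • (a * (a * b * c))) + (2 : ℤ) • (a * (a * b * c) * c) +
      (2 : ℤ) • (a * (a * b * b) * c) - a * (a * b * b) * c * c := by
    noncomm_ring
  rw [e, t, t1, t2]
  simp

theorem Sys.lg_sq (h : Sys M x C) {g : G} (hg : g ∈ h.sub) :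
    lg M g * lg M g = (4 : ℤ) • ((M g - 1) * (M g - 1)) := by
  obtain ⟨a, ha⟩ : ∃ a, a = M g - 1 := ⟨_, rfl⟩
  have t : a * a * a = 0 := by rw [ha]; exact h.triple hg hg hg
  unfold lg
  rw [← ha]
  have e : (a + a - a * a) * (a + a - a * a) =
      (4 : ℤ) • (a * a) - (4 : ℤ) • (a * a * a) + (a * a * a) * a := by
    noncomm_ring
  rw [e, t]
  simp

/-- the difference of an element and its inverse -/
theorem Sys.sub_inv (h : Sys M x C) {g : G} (hg : g ∈ h.sub) : M g - M g⁻¹ = lg M g := by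
  rw [h.inv_eq hg]
  unfold lg
  noncomm_ring

/-- the sum of an element and its inverse -/
theorem Sys.add_inv (h : Sys M x C) {g : G} (hg : g ∈ h.sub) :
    M g + M g⁻¹ = 1 + 1 + (M g - 1) * (M g - 1) := by
  rw [h.inv_eq hg]
  noncomm_ring

/-- an element with `lg` killing `x` acts trivially -/
theorem Sys.van' (h : Sys M x C) {g : G} (hg : g ∈ h.sub)
    (h0 : (lg M g * lg M g).mulVec x = 0) : M g = 1 := by
  refine h.van hg ?_
  rw [h.lg_sq hg, Matrix.smul_mulVec] at h0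
  exact (smul_eq_zero.1 h0).resolve_left (by norm_num)

theorem Sys.van1 (h : Sys M x C) {g : G} (hg : g ∈ h.sub)
    (h0 : (lg M g).mulVec x = 0) : M g = 1 := by
  refine h.van' hg ?_
  rw [← Matrix.mulVec_mulVec, h0, Matrix.mulVec_zero]

/-- the main inequality for the logarithm -/
theorem Sys.main (h : Sys M x C) : ∃ C1 : ℝ, 0 ≤ C1 ∧ ∀ g ∈ h.sub, nr (im (lg M g)) ≤
    C1 * (1 + nv ((im (lg M g) * im (lg M g)).mulVec (iv x))) := by
  have hC := h.nonneg
  have hx := nv_nonneg (iv x)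
  refine ⟨2 * C * (2 * nv (iv x) + 1), by positivity, fun g hg => ?_⟩
  obtain ⟨y, hy⟩ : ∃ y, y = (im (lg M g) * im (lg M g)).mulVec (iv x) := ⟨_, rfl⟩
  have h1 : (im (M g + M g⁻¹)).mulVec (iv x) = (2 : ℝ) • iv x + (1 / 4 : ℝ) • y := by
    have e1 : im (lg M g) * im (lg M g) = (4 : ℝ) • im ((M g - 1) * (M g - 1)) := by
      rw [← map_mul, h.lg_sq hg]
      ext i j
      rw [im_apply, Matrix.smul_apply, Matrix.smul_apply, im_apply, smul_eq_mul, smul_eq_mul]
      push_cast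
      ring
    rw [hy, e1, h.add_inv hg, map_add, map_add, map_one, Matrix.add_mulVec, Matrix.add_mulVec,
      Matrix.one_mulVec, Matrix.smul_mulVec, smul_smul, two_smul]
    norm_num
  have h2 : nv ((im (M g + M g⁻¹)).mulVec (iv x)) ≤ 2 * nv (iv x) + nv y := by
    rw [h1]
    refine (nv_add _ _).trans ?_
    rw [nv_smul, nv_smul]
    have h3 : |(2 : ℝ)| = 2 := by norm_num
    have h4 : |(1 / 4 : ℝ)| = 1 / 4 := by norm_num
    rw [h3, h4]
    have := nv_nonneg y
    linarith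
  have h3 := h.sal g
  have h4 := h.sal g⁻¹
  rw [inv_inv, add_comm (M g⁻¹) (M g)] at h4
  have h5 : nr (im (lg M g)) ≤ nr (im (M g)) + nr (im (M g⁻¹)) := by
    rw [← h.sub_inv hg, map_sub]
    exact nr_sub _ _
  have h6 := mul_le_mul_of_nonneg_left h2 hC
  rw [← hy]
  have hy0 := nv_nonneg y
  have h7 : 0 ≤ C * nv (iv x) * nv y := by positivity
  nlinarith

/-- `M g` in terms of the logarithm -/
theorem Sys.exp (h : Sys M x C) {g : G} (hg : g ∈ h.sub) :
    im (M g) = 1 + (1 / 2 : ℝ) • im (lg M g) + (1 / 8 : ℝ) • (im (lg M g) * im (lg M g)) := by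
  have e1 : im (lg M g) * im (lg M g) = (4 : ℝ) • im ((M g - 1) * (M g - 1)) := by
    rw [← map_mul, h.lg_sq hg]
    ext i j
    rw [im_apply, Matrix.smul_apply, Matrix.smul_apply, im_apply, smul_eq_mul, smul_eq_mul]
    push_cast
    ring
  rw [e1]
  unfold lg
  rw [map_sub, map_add, smul_smul]
  ext i j
  simp only [Matrix.add_apply, Matrix.sub_apply, Matrix.smul_apply, smul_eq_mul, map_sub, map_one,
    map_mul]
  ring

end

end Run7.h913.ST
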