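import Mathlib

/-!
Groups of matrices whose norms grow at most quadratically in the word length, part 1: norms.
-/

set_option autoImplicit false

open Matrix

namespace Run7.h913.ST

section

variable {ρ : ℕ}

/-- the sum of the absolute values of the entries -/
noncomputable def nr (A : Matrix (Fin ρ) (Fin ρ) ℝ) : ℝ := ∑ i, ∑ j, |A i j|

/-- the sum of the absolute values of the entries -/
noncomputable def nv (x : Fin ρ → ℝ) : ℝ := ∑ i, |x i|

theorem nr_nonneg (A : Matrix (Fin ρ) (Fin ρ) ℝ) : 0 ≤ nr A :=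
  Finset.sum_nonneg fun _ _ => Finset.sum_nonneg fun _ _ => abs_nonneg _

theorem nv_nonneg (x : Fin ρ → ℝ) : 0 ≤ nv x := Finset.sum_nonneg fun _ _ => abs_nonneg _

theorem entry_le (A : Matrix (Fin ρ) (Fin ρ) ℝ) (i j : Fin ρ) : |A i j| ≤ nr A :=
  (Finset.single_le_sum (f := fun j => |A i j|) (fun _ _ => abs_nonneg _)
    (Finset.mem_univ j)).trans (Finset.single_le_sum (f := fun i => ∑ j, |A i j|)
      (fun _ _ => Finset.sum_nonneg fun _ _ => abs_nonneg _) (Finset.mem_univ i))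

theorem ventry_le (x : Fin ρ → ℝ) (i : Fin ρ) : |x i| ≤ nv x :=
  Finset.single_le_sum (f := fun i => |x i|) (fun _ _ => abs_nonneg _) (Finset.mem_univ i)

theorem nr_add (A B : Matrix (Fin ρ) (Fin ρ) ℝ) : nr (A + B) ≤ nr A + nr B := by
  unfold nr
  rw [← Finset.sum_add_distrib]
  refine Finset.sum_le_sum fun i _ => ?_
  rw [← Finset.sum_add_distrib]
  exact Finset.sum_le_sum fun j _ => abs_add_le _ _

theorem nr_smul (a : ℝ) (A : Matrix (Fin ρ) (Fin ρ) ℝ) : nr (a • A) = |a| * nr A := by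
  unfold nr
  rw [Finset.mul_sum]
  refine Finset.sum_congr rfl fun i _ => ?_
  rw [Finset.mul_sum]
  refine Finset.sum_congr rfl fun j _ => ?_
  rw [Matrix.smul_apply, smul_eq_mul, abs_mul]

theorem nr_neg (A : Matrix (Fin ρ) (Fin ρ) ℝ) : nr (-A) = nr A := by
  have h := nr_smul (-1) A
  rw [neg_one_smul, abs_neg, abs_one, one_mul] at h
  exact h

theorem nr_sub (A B : Matrix (Fin ρ) (Fin ρ) ℝ) : nr (A - B) ≤ nr A + nr B := by
  rw [sub_eq_add_neg]
  refine (nr_add _ _).trans ?_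
  rw [nr_neg]

theorem nr_zero : nr (0 : Matrix (Fin ρ) (Fin ρ) ℝ) = 0 := by
  unfold nr
  simp

theorem eq_zero_of_nr {A : Matrix (Fin ρ) (Fin ρ) ℝ} (h : nr A ≤ 0) : A = 0 := by
  ext i j
  exact abs_eq_zero.1 (le_antisymm ((entry_le A i j).trans h) (abs_nonneg _))

theorem nr_sum {ι : Type*} (s : Finset ι) (f : ι → Matrix (Fin ρ) (Fin ρ) ℝ) :
    nr (∑ i ∈ s, f i) ≤ ∑ i ∈ s, nr (f i) := by
  classical
  induction s using Finset.induction_on with
  | empty => rw [Finset.sum_empty, Finset.sum_empty, nr_zero]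
  | insert a s ha ih =>
    rw [Finset.sum_insert ha, Finset.sum_insert ha]
    exact (nr_add _ _).trans (by linarith)

theorem nv_add (x z : Fin ρ → ℝ) : nv (x + z) ≤ nv x + nv z := by
  unfold nv
  rw [← Finset.sum_add_distrib]
  exact Finset.sum_le_sum fun j _ => abs_add_le _ _

theorem nv_smul (a : ℝ) (x : Fin ρ → ℝ) : nv (a • x) = |a| * nv x := by
  unfold nv
  rw [Finset.mul_sum]
  refine Finset.sum_congr rfl fun i _ => ?_
  rw [Pi.smul_apply, smul_eq_mul, abs_mul]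

theorem nv_neg (x : Fin ρ → ℝ) : nv (-x) = nv x := by
  have h := nv_smul (-1) x
  rw [neg_one_smul, abs_neg, abs_one, one_mul] at h
  exact h

theorem nv_sub (x z : Fin ρ → ℝ) : nv (x - z) ≤ nv x + nv z := by
  rw [sub_eq_add_neg]
  refine (nv_add _ _).trans ?_
  rw [nv_neg]

theorem nv_mulVec (A : Matrix (Fin ρ) (Fin ρ) ℝ) (x : Fin ρ → ℝ) :
    nv (A.mulVec x) ≤ nr A * nv x := by
  unfold nv nr
  rw [Finset.sum_mul]
  refine Finset.sum_le_sum fun i _ => ?_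
  unfold Matrix.mulVec dotProduct
  refine (Finset.abs_sum_le_sum_abs _ _).trans ?_
  rw [Finset.sum_mul]
  refine Finset.sum_le_sum fun j _ => ?_
  rw [abs_mul]
  exact mul_le_mul_of_nonneg_left (ventry_le x j) (abs_nonneg _)

theorem nr_mul (A B : Matrix (Fin ρ) (Fin ρ) ℝ) : nr (A * B) ≤ nr A * nr B := by
  unfold nr
  rw [Finset.sum_mul]
  refine Finset.sum_le_sum fun i _ => ?_
  have h1 : ∀ k, |(A * B) i k| ≤ ∑ j, |A i j| * |B j k| := by
    intro k
    rw [Matrix.mul_apply]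
    refine (Finset.abs_sum_le_sum_abs _ _).trans (le_of_eq ?_)
    exact Finset.sum_congr rfl fun j _ => abs_mul _ _
  refine (Finset.sum_le_sum fun k _ => h1 k).trans ?_
  rw [Finset.sum_comm, Finset.sum_mul]
  refine Finset.sum_le_sum fun j _ => ?_
  rw [← Finset.mul_sum]
  exact mul_le_mul_of_nonneg_left (Finset.single_le_sum (f := fun i => ∑ j, |B i j|)
    (fun _ _ => Finset.sum_nonneg fun _ _ => abs_nonneg _) (Finset.mem_univ j)) (abs_nonneg _)

/-- a sequence of matrices with at most quadratic growth -/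
def QB (X : ℕ → Matrix (Fin ρ) (Fin ρ) ℝ) : Prop := ∃ C : ℝ, ∀ m : ℕ, nr (X m) ≤ C * ((m : ℝ) ^ 2 + 1)

theorem QB.add {X Y : ℕ → Matrix (Fin ρ) (Fin ρ) ℝ} (h : QB X) (h' : QB Y) :
    QB fun m => X m + Y m := by
  obtain ⟨C, hC⟩ := h
  obtain ⟨C', hC'⟩ := h'
  exact ⟨C + C', fun m => (nr_add _ _).trans (by linarith [hC m, hC' m])⟩

theorem QB.smul {X : ℕ → Matrix (Fin ρ) (Fin ρ) ℝ} (h : QB X) (a : ℝ) :
    QB fun m => a • X m := by
  obtain ⟨C, hC⟩ := h
  refine ⟨|a| * C, fun m => ?_⟩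
  beta_reduce
  rw [nr_smul, mul_assoc]
  exact mul_le_mul_of_nonneg_left (hC m) (abs_nonneg _)

theorem QB.neg {X : ℕ → Matrix (Fin ρ) (Fin ρ) ℝ} (h : QB X) : QB fun m => - X m := by
  obtain ⟨C, hC⟩ := h
  refine ⟨C, fun m => ?_⟩
  beta_reduce
  rw [nr_neg]
  exact hC m

theorem QB.sub {X Y : ℕ → Matrix (Fin ρ) (Fin ρ) ℝ} (h : QB X) (h' : QB Y) :
    QB fun m => X m - Y m := by
  obtain ⟨C, hC⟩ := h
  obtain ⟨C', hC'⟩ := h'
  exact ⟨C + C', fun m => (nr_sub _ _).trans (by linarith [hC m, hC' m])⟩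

theorem QB.const (A : Matrix (Fin ρ) (Fin ρ) ℝ) : QB fun _ => A := by
  refine ⟨nr A, fun m => ?_⟩
  nlinarith [nr_nonneg A, sq_nonneg (m : ℝ)]

theorem QB.sum {ι : Type*} (s : Finset ι) {f : ι → ℕ → Matrix (Fin ρ) (Fin ρ) ℝ}
    (h : ∀ i ∈ s, QB (f i)) : QB fun m => ∑ i ∈ s, f i m := by
  classical
  induction s using Finset.induction_on with
  | empty =>
    simp only [Finset.sum_empty]
    exact QB.const 0
  | insert a s ha ih =>
    simp only [Finset.sum_insert ha]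
    exact (h a (Finset.mem_insert_self a s)).add
      (ih fun i hi => h i (Finset.mem_insert_of_mem hi))

theorem QB.congr {X Y : ℕ → Matrix (Fin ρ) (Fin ρ) ℝ} (h : QB X) (h' : ∀ m, Y m = X m) :
    QB Y := by
  obtain ⟨C, hC⟩ := h
  exact ⟨C, fun m => by rw [h' m]; exact hC m⟩

theorem QB.comp {X : ℕ → Matrix (Fin ρ) (Fin ρ) ℝ} (h : QB X) (a : ℕ) :
    QB fun m => X (a * m) := by
  obtain ⟨C, hC⟩ := h
  have hC0 : 0 ≤ C := by
    have h1 := (nr_nonneg _).trans (hC 0)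
    simpa using h1
  refine ⟨C * ((a : ℝ) ^ 2 + 1), fun m => (hC (a * m)).trans ?_⟩
  rw [mul_assoc]
  refine mul_le_mul_of_nonneg_left ?_ hC0
  push_cast
  nlinarith [sq_nonneg (a : ℝ), sq_nonneg (m : ℝ)]

/-- a power at least the third does not have quadratic growth -/
theorem QB.eq_zero {Z : Matrix (Fin ρ) (Fin ρ) ℝ} {d : ℕ} (hd : 3 ≤ d)
    (h : QB fun m => ((m : ℝ) ^ d) • Z) : Z = 0 := by
  obtain ⟨C, hC⟩ := h
  refine eq_zero_of_nr ?_
  by_contra hcon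
  push Not at hcon
  obtain ⟨m, hm⟩ := exists_nat_gt (2 * C / nr Z + 1)
  have hC0 : 0 ≤ C := by
    have h1 := (nr_nonneg _).trans (hC 0)
    simpa using h1
  have hm1 : (1 : ℝ) ≤ m := by
    have : 0 ≤ 2 * C / nr Z := by positivity
    linarith
  have h1 := hC m
  rw [nr_smul, abs_of_nonneg (by positivity)] at h1
  have h2 : (m : ℝ) ^ 3 ≤ (m : ℝ) ^ d := pow_le_pow_right₀ hm1 hd
  have h3 := mul_le_mul_of_nonneg_right h2 hcon.le
  have h4 : 2 * C / nr Z < m := by linarith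
  rw [div_lt_iff₀ hcon] at h4
  have h5 : (m : ℝ) ^ 3 * nr Z ≤ C * ((m : ℝ) ^ 2 + 1) := h3.trans h1
  have h6 : (1 : ℝ) ≤ (m : ℝ) ^ 2 := one_le_pow₀ hm1
  have h7 : C * ((m : ℝ) ^ 2 + 1) ≤ 2 * C * (m : ℝ) ^ 2 := by nlinarith
  have h8 : (m : ℝ) ^ 3 * nr Z = (m * nr Z) * (m : ℝ) ^ 2 := by ring
  have h9 : 2 * C * (m : ℝ) ^ 2 < (m * nr Z) * (m : ℝ) ^ 2 :=
    mul_lt_mul_of_pos_right h4 (by positivity)
  linarith

end

end Run7.h913.ST
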