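import Pool.Agent.Run7.h913.ST.Fin
import Pool.Agent.Run7.h913.ST.Defs
import Pool.Agent.Run7.h528.NR.Term
import Pool.Agent.N110.RK.Stat

/-!
The structure theorem for groups of isomorphisms in codimension one which preserve a divisor of
numerical dimension at least `n - 1`.
-/

set_option autoImplicit false
set_option linter.overlappingInstances false
set_option linter.unusedSectionVars false

open FF Pool.Agent.W602.GT Pool.Agent.Y172 Pool.Agent.R887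
open Pool.Agent.N110 Pool.Agent.N110.DV Run7.h528.NR

namespace Run7.h913.ST

section

variable {K : Type} [Field K] [Algebra ℂ K] {N n : ℕ} {y : Fin (N + 1) → K}

theorem mw_of (hy : NormalModel y) (hn : Algebra.trdeg ℂ K = n) (hn0 : 0 < n)
    {i : Fin (N + 1)} (hi : y i ≠ 0) {ρ : ℕ} {c : Place ℂ K → Fin ρ → ℤ} (hc : NumClasses y c)
    (G : Subgroup (K ≃ₐ[ℂ] K)) (hps : ∀ g ∈ G, PseudoAut g y) (hQ : Quadr hy hi n G) :
    MordellWeil y n c G := by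
  obtain ⟨G₀, r, Φ, C, h1, h2, h3, h4, h5, h6⟩ := mw_main hy hn hn0 hi hc G hps hQ
  refine ⟨G₀, r, Φ, C, h1, h2, h3, h4, fun g hg P Q hQ hPQ => ?_, h6⟩
  have e1 : P = comap ((g : G) : K ≃ₐ[ℂ] K) Q := Place.ext (funext fun f => hPQ f)
  have e2 := h5 g⁻¹ (by rw [map_inv, hg, inv_one]) Q hQ
  rw [Subgroup.coe_inv, Subgroup.coe_inv, inv_inv, ← e1] at e2
  exact e2

/-- groups which preserve `K_X + Δ` -/
theorem mw_K (hy : NormalModel y) (hn : Algebra.trdeg ℂ K = n) (hn0 : 0 < n) {ρ : ℕ}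
    {c : Place ℂ K → Fin ρ → ℤ} (hc : NumClasses y c) {Δ : Place ℂ K → ℚ}
    (hΔ : {P | IsPrimeDivisor y P ∧ Δ P ≠ 0}.Finite) (G : Subgroup (K ≃ₐ[ℂ] K))
    (hps : ∀ g ∈ G, PseudoAut g y) (hP : ∀ g ∈ G, PullLe g y n Δ) :
    (1 < n ∧ NumDimLt y n Δ (n - 1)) ∨ MordellWeil y n c G := by
  by_cases h : 1 < n ∧ NumDimLt y n Δ (n - 1)
  · exact Or.inl h
  · right
    obtain ⟨i, hi⟩ := hy.ne
    exact mw_of hy hn hn0 hi hc G hps (quadr_of hy hn hn0 hi hΔ G hP fun h1 h2 => h ⟨h1, h2⟩)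

/-- groups which preserve the class of a divisor -/
theorem mw_D (hy : NormalModel y) (hn : Algebra.trdeg ℂ K = n) (hn0 : 0 < n) {ρ : ℕ}
    {c : Place ℂ K → Fin ρ → ℤ} (hc : NumClasses y c) {L : Place ℂ K → ℚ}
    (hL : {P | IsPrimeDivisor y P ∧ L P ≠ 0}.Finite) (G : Subgroup (K ≃ₐ[ℂ] K))
    (hps : ∀ g ∈ G, PseudoAut g y) (hcl : ∀ g ∈ G, ClassLe g y L) :
    (1 < n ∧ NuLt y n L (n - 1)) ∨ MordellWeil y n c G := by
  by_cases h : 1 < n ∧ NuLt y n L (n - 1)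
  · exact Or.inl h
  · right
    obtain ⟨i, hi⟩ := hy.ne
    exact mw_of hy hn hn0 hi hc G hps (quadr_ofD hy hn hn0 hi hL G hps hcl
      fun h1 h2 => h ⟨h1, h2⟩)

end

end Run7.h913.ST
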